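import Mathlib

set_option autoImplicit false

open Metric Set Filter Topology Real

namespace Pool.Agent.Lib.MP_e6ddea_an.Ann

/-- Fourier uniqueness on a circle. -/
theorem const_of_modes {ρ : ℝ} (hρ : 0 < ρ) {g : ℂ → ℝ} (hg : ContinuousOn g (sphere 0 ρ))
    (hm : ∀ n : ℤ, n ≠ 0 → circleAverage (fun w => (g w : ℂ) * w ^ (-n)) 0 ρ = 0) :
    ∀ w ∈ sphere (0 : ℂ) ρ, g w = circleAverage g 0 ρ := by
  have : Fact (0 < 2 * π) := ⟨by positivity⟩
  let f : C(AddCircle (2 * π), ℂ) :=
    ⟨fun x => ((g (ρ * (AddCircle.toCircle x : ℂ)) : ℝ) : ℂ), by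
      apply Complex.continuous_ofReal.comp
      apply hg.comp_continuous
      · exact continuous_const.mul (continuous_subtype_val.comp AddCircle.continuous_toCircle)
      · intro x
        simp [abs_of_pos hρ]⟩
  have hcircle : ∀ x : ℝ, (ρ : ℂ) * (AddCircle.toCircle (x : AddCircle (2 * π)) : ℂ) =
      circleMap 0 ρ x := by
    intro x
    rw [AddCircle.toCircle_apply_mk, circleMap, Circle.coe_exp]
    rw [show (2 * π / (2 * π) * x : ℝ) = x by field_simp]
    simp
  have hcoeff : ∀ n : ℤ, fourierCoeff f n = (ρ : ℂ) ^ n *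
      circleAverage (fun w => (g w : ℂ) * w ^ (-n)) 0 ρ := by
    intro n
    rw [fourierCoeff_eq_intervalIntegral f n 0, circleAverage]
    rw [zero_add, mul_smul_comm, one_div]
    congr 1
    rw [← intervalIntegral.integral_const_mul]
    apply intervalIntegral.integral_congr
    intro x _
    have h1 : f (x : AddCircle (2 * π)) = ((g (circleMap 0 ρ x) : ℝ) : ℂ) := by
      show ((g (ρ * (AddCircle.toCircle (x : AddCircle (2 * π)) : ℂ)) : ℝ) : ℂ) = _
      rw [hcircle]
    have h2 : (fourier (-n) (x : AddCircle (2 * π)) : ℂ) =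
        (ρ : ℂ) ^ n * (circleMap 0 ρ x) ^ (-n) := by
      rw [fourier_coe_apply]
      have hρ' : (ρ : ℂ) ≠ 0 := by exact_mod_cast hρ.ne'
      rw [circleMap, zero_add, mul_zpow, ← mul_assoc, zpow_neg, mul_inv_cancel₀ (zpow_ne_zero _ hρ'),
        one_mul, ← Complex.exp_int_mul]
      congr 1
      push_cast
      field_simp
    simp only [h1, h2, smul_eq_mul]
    ring
  have hzero : ∀ n : ℤ, n ≠ 0 → fourierCoeff f n = 0 := by
    intro n hn
    rw [hcoeff, hm n hn, mul_zero]
  have hsum : Summable (fourierCoeff f) := by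
    apply summable_of_ne_finset_zero (s := {0})
    intro n hn
    exact hzero n (by simpa using hn)
  have hg0 : fourierCoeff f 0 = ((circleAverage g 0 ρ : ℝ) : ℂ) := by
    rw [hcoeff]
    simp only [zpow_zero, one_mul, neg_zero, mul_one]
    have := (Complex.ofRealCLM).circleAverage_comp_comm (f := g) (c := 0) (R := ρ)
      (ContinuousOn.circleIntegrable hρ.le hg)
    simpa [Function.comp_def] using this
  intro w hw
  have hw' : ∃ x : ℝ, circleMap 0 ρ x = w := by
    have : w ∈ Set.range (circleMap 0 ρ) := by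
      rw [range_circleMap, abs_of_pos hρ]
      exact hw
    exact this
  obtain ⟨x, rfl⟩ := hw'
  have h3 := has_pointwise_sum_fourier_series_of_summable hsum (x : AddCircle (2 * π))
  have h4 : HasSum (fun i : ℤ => fourierCoeff f i • (fourier i (x : AddCircle (2 * π)) : ℂ))
      (fourierCoeff f 0 • (fourier 0 (x : AddCircle (2 * π)) : ℂ)) := by
    apply hasSum_single
    intro n hn
    rw [hzero n hn, zero_smul]
  have h5 := h3.unique h4
  have h6 : f (x : AddCircle (2 * π)) = ((g (circleMap 0 ρ x) : ℝ) : ℂ) := by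
    show ((g (ρ * (AddCircle.toCircle (x : AddCircle (2 * π)) : ℂ)) : ℝ) : ℂ) = _
    rw [hcircle]
  rw [h6, hg0] at h5
  simp only [fourier_zero, smul_eq_mul, mul_one] at h5
  exact_mod_cast h5

end Pool.Agent.Lib.MP_e6ddea_an.Ann
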