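import Mathlib
import Pool.Agent.Lib.MP_e6ddea_an.Basic

set_option autoImplicit false

open InnerProductSpace Metric Set Filter Topology

namespace Pool.Agent.Lib.MP_e6ddea_an.Ann

/-- The Lambert series. -/
noncomputable def lam (q : ℝ) (w : ℂ) : ℂ :=
  ∑' j : ℕ, ((q : ℂ) ^ (j + 1) * w) / (1 - (q : ℂ) ^ (j + 1) * w)

theorem term_bound {q : ℝ} (hq : 0 ≤ q) {ρ : ℝ} (hρ : q * ρ < 1) (hρ0 : 0 ≤ ρ) (hq1 : q < 1)
    (j : ℕ) {w : ℂ} (hw : ‖w‖ ≤ ρ) :
    (1 - (q : ℂ) ^ (j + 1) * w) ≠ 0 ∧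
    ‖((q : ℂ) ^ (j + 1) * w) / (1 - (q : ℂ) ^ (j + 1) * w)‖ ≤ ρ / (1 - q * ρ) * q ^ (j + 1) := by
  have h1 : ‖(q : ℂ) ^ (j + 1) * w‖ ≤ q ^ (j + 1) * ρ := by
    rw [norm_mul, norm_pow, Complex.norm_real, Real.norm_eq_abs, abs_of_nonneg hq]
    exact mul_le_mul_of_nonneg_left hw (by positivity)
  have h2 : q ^ (j + 1) * ρ ≤ q * ρ := by
    apply mul_le_mul_of_nonneg_right _ hρ0
    have := pow_le_one₀ hq hq1.le (n := j)
    rw [pow_succ]
    nlinarith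
  have h3 : 1 - q * ρ ≤ ‖1 - (q : ℂ) ^ (j + 1) * w‖ := by
    have := norm_sub_norm_le (1 : ℂ) ((q : ℂ) ^ (j + 1) * w)
    rw [norm_one] at this
    linarith
  refine ⟨?_, ?_⟩
  · intro h
    rw [h, norm_zero] at h3
    linarith
  · rw [norm_div, div_le_iff₀ (by linarith)]
    have h4 : 0 ≤ ρ / (1 - q * ρ) * q ^ (j + 1) :=
      mul_nonneg (div_nonneg hρ0 (by linarith)) (by positivity)
    calc ‖(q : ℂ) ^ (j + 1) * w‖ ≤ q ^ (j + 1) * ρ := h1
      _ = ρ / (1 - q * ρ) * q ^ (j + 1) * (1 - q * ρ) := by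
        have h5 : (1 - q * ρ) ≠ 0 := by linarith
        rw [mul_right_comm, div_mul_cancel₀ _ h5]
        ring
      _ ≤ _ := mul_le_mul_of_nonneg_left h3 h4

theorem summable_bound {q : ℝ} (hq : 0 ≤ q) (hq1 : q < 1) (C : ℝ) :
    Summable (fun j : ℕ => C * q ^ (j + 1)) := by
  apply Summable.mul_left
  simpa [pow_succ'] using (summable_geometric_of_lt_one hq hq1).mul_left q

theorem summable_term {q : ℝ} (hq : 0 ≤ q) (hq1 : q < 1) {w : ℂ} (hw : q * ‖w‖ < 1) :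
    Summable (fun j : ℕ => ((q : ℂ) ^ (j + 1) * w) / (1 - (q : ℂ) ^ (j + 1) * w)) := by
  apply Summable.of_norm_bounded (g := fun j => ‖w‖ / (1 - q * ‖w‖) * q ^ (j + 1))
    (summable_bound hq hq1 _)
  intro j
  exact (term_bound hq hw (norm_nonneg _) hq1 j le_rfl).2

theorem differentiableAt_lam {q : ℝ} (hq : 0 ≤ q) (hq1 : q < 1) {w : ℂ} (hw : q * ‖w‖ < 1) :
    DifferentiableAt ℂ (lam q) w := by
  -- choose a radius
  obtain ⟨ρ, hρ1, hρ2⟩ : ∃ ρ : ℝ, ‖w‖ < ρ ∧ q * ρ < 1 := by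
    rcases hq.eq_or_lt with h | h
    · exact ⟨‖w‖ + 1, by linarith, by rw [← h]; norm_num⟩
    · have h1 : ‖w‖ < 1 / q := by rw [lt_div_iff₀ h]; linarith
      obtain ⟨ρ, h2, h3⟩ := exists_between h1
      refine ⟨ρ, h2, ?_⟩
      rw [lt_div_iff₀ h] at h3
      linarith
  have hρ0 : 0 ≤ ρ := (norm_nonneg w).trans hρ1.le
  have h := Complex.differentiableOn_tsum_of_summable_norm
    (F := fun (j : ℕ) (w : ℂ) => ((q : ℂ) ^ (j + 1) * w) / (1 - (q : ℂ) ^ (j + 1) * w))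
    (U := ball (0 : ℂ) ρ)
    (summable_bound hq hq1 (ρ / (1 - q * ρ)))
    (fun j => by
      intro z hz
      rw [mem_ball, dist_zero_right] at hz
      have := (term_bound hq hρ2 hρ0 hq1 j hz.le).1
      apply DifferentiableAt.differentiableWithinAt
      apply DifferentiableAt.div
      · fun_prop
      · fun_prop
      · exact this)
    isOpen_ball
    (fun j z hz => by
      rw [mem_ball, dist_zero_right] at hz
      exact (term_bound hq hρ2 hρ0 hq1 j hz.le).2)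
  exact h.differentiableAt (isOpen_ball.mem_nhds (by rwa [mem_ball, dist_zero_right]))

/-- The functional equation. -/
theorem lam_eq {q : ℝ} (hq : 0 ≤ q) (hq1 : q < 1) {w : ℂ} (hw : q * ‖w‖ < 1) :
    lam q w = (q * w) / (1 - q * w) + lam q (q * w) := by
  unfold lam
  rw [(summable_term hq hq1 hw).tsum_eq_zero_add]
  congr 1
  · simp
  · apply tsum_congr
    intro j
    rw [show (q : ℂ) ^ (j + 1 + 1) * w = (q : ℂ) ^ (j + 1) * (q * w) by ring]

theorem lam_conj (q : ℝ) (w : ℂ) :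
    lam q ((starRingEnd ℂ) w) = (starRingEnd ℂ) (lam q w) := by
  unfold lam
  rw [Complex.conj_tsum]
  apply tsum_congr
  intro j
  simp

theorem lam_zero (q : ℝ) : lam q 0 = 0 := by
  simp [lam]

theorem isOpen_dom (q : ℝ) : IsOpen {w : ℂ | q * ‖w‖ < 1} :=
  isOpen_lt (by fun_prop) continuous_const

theorem analyticAt_lam {q : ℝ} (hq : 0 ≤ q) (hq1 : q < 1) {w : ℂ} (hw : q * ‖w‖ < 1) :
    AnalyticAt ℂ (lam q) w := by
  have h : DifferentiableOn ℂ (lam q) {w : ℂ | q * ‖w‖ < 1} := fun z hz =>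
    (differentiableAt_lam hq hq1 hz).differentiableWithinAt
  exact h.analyticAt ((isOpen_dom q).mem_nhds hw)

end Pool.Agent.Lib.MP_e6ddea_an.Ann
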