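import Mathlib
import Pool.Agent.Lib.MP_e6ddea_an.Domain
import Pool.Agent.Lib.MP_e6ddea_an.Ann.Lambert

set_option autoImplicit false

open InnerProductSpace Metric Set Filter Topology

namespace Pool.Agent.Lib.MP_e6ddea_an.Ann

/-- Weak minimum principle with boundary liminf. -/
theorem weak_min_bd {U : Set ℂ} (hU : IsOpen U) (hb : Bornology.IsBounded U) {h : ℂ → ℝ}
    (hh : HarmonicOnNhd h U)
    (hbd : ∀ p ∈ closure U, p ∉ U → ∀ δ : ℝ, 0 < δ → ∀ᶠ z in 𝓝 p, z ∈ U → -δ < h z) :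
    ∀ z ∈ U, 0 ≤ h z := by
  apply weak_min hU hh
  intro δ hδ
  let W : Set ℂ := interior {z | z ∈ U → -δ < h z}
  refine ⟨closure U \ W, ?_, ?_, ?_⟩
  · rintro z ⟨hz1, hz2⟩
    by_contra hzU
    apply hz2
    rw [mem_interior_iff_mem_nhds]
    exact hbd z hz1 hzU δ hδ
  · exact (isCompact_of_isClosed_isBounded isClosed_closure hb.closure).diff isOpen_interior
  · intro z hz hz2
    have h1 : z ∈ W := by
      by_contra h
      exact hz2 ⟨subset_closure hz, h⟩
    exact interior_subset h1 hz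

/-- Strong minimum principle. -/
theorem strong_min {U : Set ℂ} (hU : IsOpen U) (hc : IsPreconnected U) {h : ℂ → ℝ}
    (hh : HarmonicOnNhd h U) (hnn : ∀ z ∈ U, 0 ≤ h z) {z₁ : ℂ} (hz₁ : z₁ ∈ U) (h0 : h z₁ = 0) :
    ∀ z ∈ U, h z = 0 := by
  let S : Set ℂ := {z | z ∈ U ∧ h z = 0}
  have hSopen : IsOpen S := by
    rw [isOpen_iff_mem_nhds]
    intro z hz
    have h1 : ∀ᶠ w in 𝓝 z, h w = h z := by
      apply eventually_const_of_isLocalMin (hh z hz.1)
      filter_upwards [hU.mem_nhds hz.1] with y hy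
      rw [hz.2]
      exact hnn y hy
    filter_upwards [h1, hU.mem_nhds hz.1] with y hy hyU
    exact ⟨hyU, by rw [hy, hz.2]⟩
  have hTopen : IsOpen {z | z ∈ U ∧ h z ≠ 0} := by
    have := hh.continuousOn.isOpen_inter_preimage hU (isOpen_ne (x := (0 : ℝ)))
    convert this using 1
    ext z
    simp
  intro z hz
  by_contra hne
  have := hc S {z | z ∈ U ∧ h z ≠ 0} hSopen hTopen (fun x hx => by
    by_cases hx0 : h x = 0
    · exact Or.inl ⟨hx, hx0⟩
    · exact Or.inr ⟨hx, hx0⟩) ⟨z₁, hz₁, hz₁, h0⟩ ⟨z, hz, hz, hne⟩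
  obtain ⟨x, _, hx1, hx2⟩ := this
  exact hx2.2 hx1.2

/-- The annulus `r < |w| < 1`. -/
def An (r : ℝ) : Set ℂ := {w : ℂ | r < ‖w‖ ∧ ‖w‖ < 1}

theorem isOpen_An (r : ℝ) : IsOpen (An r) :=
  (isOpen_lt continuous_const continuous_norm).inter (isOpen_lt continuous_norm continuous_const)

theorem isBounded_An (r : ℝ) : Bornology.IsBounded (An r) := by
  apply (isBounded_ball (x := (0 : ℂ)) (r := 1)).subset
  intro w hw
  simpa using hw.2

/-- The regular part of the kernel. -/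
noncomputable def RR (r : ℝ) (w : ℂ) : ℝ :=
  -(Real.log ‖w‖ / Real.log r) + 2 * (lam (r ^ 2) w - lam (r ^ 2) w⁻¹).re

/-- The kernel of the annulus with pole at `1`. -/
noncomputable def KK (r : ℝ) (w : ℂ) : ℝ := pk 1 w + RR r w

section

variable {r : ℝ} (h0 : 0 < r) (h1 : r < 1)

include h0 h1

theorem q_lt_one : r ^ 2 < 1 := by nlinarith

theorem dom_of {w : ℂ} (hw : ‖w‖ ≤ 1) : r ^ 2 * ‖w‖ < 1 := by
  have := q_lt_one h0 h1
  have := norm_nonneg w
  nlinarith [sq_nonneg r]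

theorem dom_inv {w : ℂ} (hw : r ≤ ‖w‖) : r ^ 2 * ‖w⁻¹‖ < 1 := by
  rw [norm_inv, ← div_eq_mul_inv, div_lt_one (by linarith)]
  nlinarith

theorem harmonicAt_RR {w : ℂ} (hw1 : r ^ 2 * ‖w‖ < 1) (hw2 : r ^ 2 * ‖w⁻¹‖ < 1) (hw0 : w ≠ 0) :
    HarmonicAt (RR r) w := by
  have a1 : HarmonicAt (fun z : ℂ => Real.log ‖z‖) w :=
    (analyticAt_id (𝕜 := ℂ) (z := w)).harmonicAt_log_norm hw0
  have a2 : AnalyticAt ℂ (fun z => lam (r ^ 2) z - lam (r ^ 2) z⁻¹) w := by
    apply AnalyticAt.sub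
    · exact analyticAt_lam (by positivity) (q_lt_one h0 h1) hw1
    · have h3 : AnalyticAt ℂ (fun z : ℂ => z⁻¹) w := analyticAt_inv hw0
      exact (analyticAt_lam (by positivity) (q_lt_one h0 h1) hw2).comp h3
  have a3 := a2.harmonicAt_re
  have a4 := ((a1.const_smul (c := -(Real.log r)⁻¹))).add (a3.const_smul (c := (2 : ℝ)))
  convert a4 using 1
  ext z
  simp only [RR, Pi.add_apply, Pi.smul_apply, smul_eq_mul]
  ring

theorem harmonicAt_KK {w : ℂ} (hw : w ∈ An r) : HarmonicAt (KK r) w := by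
  have hw0 : w ≠ 0 := by
    rintro rfl
    have := hw.1
    simp at this
    linarith
  exact (pk_harmonic (by simp) hw.2).add
    (harmonicAt_RR h0 h1 (dom_of h0 h1 hw.2.le) (dom_inv h0 h1 hw.1.le) hw0)

theorem RR_outer {w : ℂ} (hw : ‖w‖ = 1) : RR r w = 0 := by
  have e : w⁻¹ = (starRingEnd ℂ) w := by
    rw [Complex.inv_def, Complex.normSq_eq_norm_sq, hw]
    simp
  simp [RR, hw, e, lam_conj]

theorem KK_inner {w : ℂ} (hw : ‖w‖ = r) : KK r w = 0 := by
  have hlog : Real.log r ≠ 0 := (Real.log_neg h0 h1).ne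
  have e : ((r ^ 2 : ℝ) : ℂ) * w⁻¹ = (starRingEnd ℂ) w := by
    rw [Complex.inv_def, Complex.normSq_eq_norm_sq, hw]
    have : ((r ^ 2 : ℝ) : ℂ) ≠ 0 := by
      exact_mod_cast (by positivity : (r ^ 2 : ℝ) ≠ 0)
    rw [mul_comm ((starRingEnd ℂ) w), ← mul_assoc]
    rw [Complex.ofReal_inv, mul_inv_cancel₀ this, one_mul]
  have e2 : lam (r ^ 2) w⁻¹ = (starRingEnd ℂ) w / (1 - (starRingEnd ℂ) w) +
      (starRingEnd ℂ) (lam (r ^ 2) w) := by
    rw [lam_eq (by positivity) (q_lt_one h0 h1) (dom_inv h0 h1 hw.ge), e, lam_conj]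
  have hne : (1 : ℂ) - w ≠ 0 := by
    intro h
    have : w = 1 := by linear_combination -h
    rw [this, norm_one] at hw
    linarith
  have e3 : ((starRingEnd ℂ) w / (1 - (starRingEnd ℂ) w)).re = (w / (1 - w)).re := by
    have : (starRingEnd ℂ) w / (1 - (starRingEnd ℂ) w) = (starRingEnd ℂ) (w / (1 - w)) := by simp
    rw [this, Complex.conj_re]
  have e4 : ((1 + w) / (1 - w)).re = 1 + 2 * (w / (1 - w)).re := by
    have : (1 + w) / (1 - w) = 1 + 2 * (w / (1 - w)) := by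
      field_simp
      ring
    rw [this]
    simp
  rw [KK, RR, pk, e4, hw, e2, div_self hlog]
  simp only [Complex.sub_re, Complex.add_re, Complex.conj_re, e3]
  ring

theorem KK_nonneg : ∀ w ∈ An r, 0 ≤ KK r w := by
  apply weak_min_bd (isOpen_An r) (isBounded_An r) (fun w hw => harmonicAt_KK h0 h1 hw)
  intro p hp hpn δ hδ
  have hcl : closure (An r) ⊆ {w | r ≤ ‖w‖ ∧ ‖w‖ ≤ 1} := by
    apply closure_minimal
    · intro w hw
      exact ⟨hw.1.le, hw.2.le⟩
    · exact (isClosed_le continuous_const continuous_norm).inter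
        (isClosed_le continuous_norm continuous_const)
  obtain ⟨hp1, hp2⟩ := hcl hp
  have hp0 : p ≠ 0 := by
    rintro rfl
    simp at hp1
    linarith
  have hRc : ContinuousAt (RR r) p :=
    (harmonicAt_RR h0 h1 (dom_of h0 h1 hp2) (dom_inv h0 h1 hp1) hp0).1.continuousAt
  rcases hp2.eq_or_lt with h | h
  · have h3 := RR_outer h0 h1 h
    have h4 : ∀ᶠ z in 𝓝 p, -δ < RR r z := by
      apply hRc.eventually (lt_mem_nhds _)
      rw [h3]
      linarith
    filter_upwards [h4] with z hz hzA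
    have := pk_pos (ω := 1) (by simp) hzA.2
    rw [KK]
    linarith
  · have hpr : ‖p‖ = r := by
      rcases hp1.eq_or_lt with h' | h'
      · exact h'.symm
      · exact absurd ⟨h', h⟩ hpn
    have hKc : ContinuousAt (KK r) p :=
      ((pk_harmonic (by simp) h).1.continuousAt).add hRc
    have h4 : ∀ᶠ z in 𝓝 p, -δ < KK r z := by
      apply hKc.eventually (lt_mem_nhds _)
      rw [KK_inner h0 h1 hpr]
      linarith
    filter_upwards [h4] with z hz hzA
    exact hz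

end

end Pool.Agent.Lib.MP_e6ddea_an.Ann
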