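import Mathlib
import Pool.Agent.Lib.MP_e6ddea_an.Ann.Kernel

set_option autoImplicit false

open InnerProductSpace Metric Set Filter Topology Real

namespace Pool.Agent.Lib.MP_e6ddea_an.Ann

/-- The holomorphic derivative. -/
noncomputable def hd (u : ℂ → ℝ) (z : ℂ) : ℂ := fderiv ℝ u z 1 - Complex.I * fderiv ℝ u z Complex.I

theorem fderiv_eq_hd (u : ℂ → ℝ) (z v : ℂ) : fderiv ℝ u z v = (hd u z * v).re := by
  have h4 : v = v.re • (1 : ℂ) + v.im • Complex.I := by simp
  conv_lhs => rw [h4]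
  rw [map_add, map_smul, map_smul]
  simp [hd]
  ring

/-- The modes of a harmonic function on an annulus. -/
theorem modes {r : ℝ} (hr : 0 ≤ r) {u : ℂ → ℝ} (hu : HarmonicOnNhd u (An r)) {n : ℤ} (hn : n ≠ 0) :
    ∃ α β : ℂ, ∀ ρ ∈ Ioo r 1,
      circleAverage (fun w => (u w : ℂ) * w ^ (-n)) 0 ρ = α + β * ((ρ : ℂ) ^ 2) ^ (-n) := by
  have hsph : ∀ ρ ∈ Ioo r 1, ∀ w ∈ sphere (0 : ℂ) ρ, w ∈ An r ∧ w ≠ 0 := by
    intro ρ hρ w hw
    rw [mem_sphere, dist_zero_right] at hw
    refine ⟨⟨by rw [hw]; exact hρ.1, by rw [hw]; exact hρ.2⟩, ?_⟩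
    rintro rfl
    simp at hw
    have := hρ.1
    linarith
  have hA0 : ∀ w ∈ An r, w ≠ 0 := by
    rintro w hw rfl
    have := hw.1
    simp at this
    linarith
  have hhd : ∀ w ∈ An r, DifferentiableAt ℂ (hd u) w := fun w hw =>
    HarmonicAt.differentiableAt_complex_partial (hu w hw)
  -- the flux integrals
  let Z : ℤ → ℝ → ℂ := fun m ρ => circleAverage (fun w => hd u w * w * w ^ (-m)) 0 ρ
  have hZmono : ∀ m : ℤ, ∀ ρ₁ ∈ Ioo r 1, ∀ ρ₂ ∈ Ioo r 1, ρ₁ ≤ ρ₂ → Z m ρ₂ = Z m ρ₁ := by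
    intro m ρ₁ h1 ρ₂ h2 hle
    have hρ₁0 : 0 < ρ₁ := lt_of_le_of_lt hr h1.1
    simp only [Z]
    rw [circleAverage_eq_circleIntegral (by
      have := h2.1
      intro h; rw [h] at this; linarith), circleAverage_eq_circleIntegral (by
      intro h; rw [h] at hρ₁0; linarith)]
    congr 1
    apply Complex.circleIntegral_sub_center_inv_smul_eq_of_differentiable_on_annulus_off_countable
      hρ₁0 hle (s := ∅) countable_empty
    · intro w hw
      have hwA : w ∈ An r := by
        refine ⟨?_, ?_⟩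
        · have := hw.2
          simp only [mem_ball, dist_zero_right, not_lt] at this
          linarith [h1.1]
        · have := hw.1
          simp only [mem_closedBall, dist_zero_right] at this
          linarith [h2.2]
      apply ContinuousAt.continuousWithinAt
      apply ContinuousAt.mul
      · exact ((hhd w hwA).continuousAt).mul continuousAt_id
      · exact continuousAt_zpow₀ _ _ (Or.inl (hA0 w hwA))
    · intro w hw
      have hwA : w ∈ An r := by
        refine ⟨?_, ?_⟩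
        · have := hw.1.2
          simp only [mem_closedBall, dist_zero_right, not_le] at this
          linarith [h1.1]
        · have := hw.1.1
          simp only [mem_ball, dist_zero_right] at this
          linarith [h2.2]
      apply DifferentiableAt.mul
      · exact (hhd w hwA).mul differentiableAt_id
      · exact differentiableAt_zpow.2 (Or.inl (hA0 w hwA))
  have hZ : ∀ m : ℤ, ∀ ρ₁ ∈ Ioo r 1, ∀ ρ₂ ∈ Ioo r 1, Z m ρ₂ = Z m ρ₁ := by
    intro m ρ₁ h1 ρ₂ h2
    rcases le_total ρ₁ ρ₂ with h | h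
    · exact hZmono m ρ₁ h1 ρ₂ h2 h
    · exact (hZmono m ρ₂ h2 ρ₁ h1 h).symm
  by_cases hne : (Ioo r 1).Nonempty
  swap
  · exact ⟨0, 0, fun ρ hρ => absurd ⟨ρ, hρ⟩ hne⟩
  obtain ⟨ρ₀, hρ₀⟩ := hne
  have hnC : (n : ℂ) * Complex.I ≠ 0 := mul_ne_zero (by exact_mod_cast hn) Complex.I_ne_zero
  refine ⟨(Complex.I / 2 * Z n ρ₀) / (n * Complex.I),
    ((starRingEnd ℂ) (Complex.I * Z (-n) ρ₀) / 2) / (n * Complex.I), ?_⟩
  intro ρ hρ
  have hρ0 : 0 < ρ := lt_of_le_of_lt hr hρ.1
  rw [← hZ n ρ₀ hρ₀ ρ hρ, ← hZ (-n) ρ₀ hρ₀ ρ hρ]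
  have hcont_u : ContinuousOn u (sphere 0 ρ) := hu.continuousOn.mono (fun w hw => (hsph ρ hρ w hw).1)
  have hcont_hd : ContinuousOn (hd u) (sphere 0 ρ) := fun w hw =>
    (hhd w (hsph ρ hρ w hw).1).continuousAt.continuousWithinAt
  have hcont_z : ∀ m : ℤ, ContinuousOn (fun w : ℂ => w ^ m) (sphere 0 ρ) := fun m w hw =>
    (continuousAt_zpow₀ _ _ (Or.inl (hsph ρ hρ w hw).2)).continuousWithinAt
  have hcu : ContinuousOn (fun w => (u w : ℂ)) (sphere 0 ρ) :=
    Complex.continuous_ofReal.comp_continuousOn hcont_u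
  -- the total derivative has zero average
  have hmem : ∀ θ : ℝ, circleMap 0 ρ θ ∈ sphere (0 : ℂ) ρ := fun θ =>
    circleMap_mem_sphere _ hρ0.le θ
  have key : circleAverage (fun w => ((hd u w * (w * Complex.I)).re : ℂ) * w ^ (-n) +
      (u w : ℂ) * (((-n : ℤ) : ℂ) * w ^ (-n) * Complex.I)) 0 ρ = 0 := by
    rw [circleAverage]
    have hderiv : ∀ θ ∈ uIcc 0 (2 * π), HasDerivAt
        (fun θ : ℝ => (u (circleMap 0 ρ θ) : ℂ) * (circleMap 0 ρ θ) ^ (-n))
        (((hd u (circleMap 0 ρ θ) * (circleMap 0 ρ θ * Complex.I)).re : ℂ) *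
          (circleMap 0 ρ θ) ^ (-n) + (u (circleMap 0 ρ θ) : ℂ) *
            (((-n : ℤ) : ℂ) * (circleMap 0 ρ θ) ^ (-n) * Complex.I)) θ := by
      intro θ _
      have hw := hsph ρ hρ _ (hmem θ)
      have d1 : HasDerivAt (circleMap 0 ρ) (circleMap 0 ρ θ * Complex.I) θ :=
        hasDerivAt_circleMap 0 ρ θ
      have d2 : HasFDerivAt u (fderiv ℝ u (circleMap 0 ρ θ)) (circleMap 0 ρ θ) :=
        ((hu _ hw.1).1.differentiableAt two_ne_zero).hasFDerivAt
      have d3 : HasDerivAt (fun θ : ℝ => u (circleMap 0 ρ θ))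
          ((hd u (circleMap 0 ρ θ) * (circleMap 0 ρ θ * Complex.I)).re) θ := by
        rw [← fderiv_eq_hd]
        exact d2.comp_hasDerivAt θ d1
      have d4 : HasDerivAt (fun θ : ℝ => (u (circleMap 0 ρ θ) : ℂ))
          (((hd u (circleMap 0 ρ θ) * (circleMap 0 ρ θ * Complex.I)).re : ℝ) : ℂ) θ :=
        d3.ofReal_comp
      have d5 : HasDerivAt (fun θ : ℝ => (circleMap 0 ρ θ) ^ (-n))
          (((-n : ℤ) : ℂ) * (circleMap 0 ρ θ) ^ (-n - 1) * (circleMap 0 ρ θ * Complex.I)) θ := by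
        have := (hasDerivAt_zpow (-n) (circleMap 0 ρ θ) (Or.inl hw.2))
        exact this.comp θ d1
      have d6 := d4.mul d5
      refine HasDerivAt.congr_deriv d6 ?_
      have e0 : (circleMap 0 ρ θ) ^ (-n - 1) * (circleMap 0 ρ θ * Complex.I) =
          (circleMap 0 ρ θ) ^ (-n) * Complex.I := by
        rw [← mul_assoc, ← zpow_add_one₀ hw.2]
        congr 2
        ring
      rw [mul_assoc (((-n : ℤ) : ℂ)), e0]
      ring
    rw [intervalIntegral.integral_eq_sub_of_hasDerivAt hderiv]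
    · have : circleMap (0 : ℂ) ρ (2 * π) = circleMap 0 ρ 0 := by
        simp [circleMap]
      rw [this]
      simp
    · apply Continuous.intervalIntegrable
      have c1 : Continuous (circleMap (0 : ℂ) ρ) := continuous_circleMap 0 ρ
      have c2 : Continuous (fun θ : ℝ => hd u (circleMap 0 ρ θ)) :=
        hcont_hd.comp_continuous c1 hmem
      have c3 : Continuous (fun θ : ℝ => (circleMap 0 ρ θ) ^ (-n)) :=
        (hcont_z (-n)).comp_continuous c1 hmem
      have c4 : Continuous (fun θ : ℝ => (u (circleMap 0 ρ θ) : ℂ)) :=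
        hcu.comp_continuous c1 hmem
      have c5 : Continuous (fun θ : ℝ =>
          ((hd u (circleMap 0 ρ θ) * (circleMap 0 ρ θ * Complex.I)).re : ℂ)) :=
        Complex.continuous_ofReal.comp (Complex.continuous_re.comp
          (c2.mul (c1.mul continuous_const)))
      exact (c5.mul c3).add (c4.mul ((continuous_const.mul c3).mul continuous_const))
  have i1 : CircleIntegrable (fun w => (Complex.I / 2) * (hd u w * w * w ^ (-n))) 0 ρ := by
    apply ContinuousOn.circleIntegrable hρ0.le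
    exact continuousOn_const.mul ((hcont_hd.mul continuousOn_id).mul (hcont_z _))
  have i2 : CircleIntegrable (fun w => (1 / 2 * ((ρ : ℂ) ^ 2) ^ (-n)) *
      (starRingEnd ℂ) (Complex.I * (hd u w * w * w ^ (-(-n))))) 0 ρ := by
    apply ContinuousOn.circleIntegrable hρ0.le
    exact continuousOn_const.mul (Complex.continuous_conj.comp_continuousOn
      (continuousOn_const.mul ((hcont_hd.mul continuousOn_id).mul (hcont_z _))))
  have i3 : CircleIntegrable (fun w => (-(n * Complex.I)) * ((u w : ℂ) * w ^ (-n))) 0 ρ := by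
    apply ContinuousOn.circleIntegrable hρ0.le
    exact continuousOn_const.mul (hcu.mul (hcont_z _))
  have key2 : circleAverage ((fun w => (Complex.I / 2) * (hd u w * w * w ^ (-n))) +
      (fun w => (1 / 2 * ((ρ : ℂ) ^ 2) ^ (-n)) *
        (starRingEnd ℂ) (Complex.I * (hd u w * w * w ^ (-(-n))))) +
      (fun w => (-(n * Complex.I)) * ((u w : ℂ) * w ^ (-n)))) 0 ρ = 0 := by
    refine Eq.trans ?_ key
    apply circleAverage_congr_sphere
    intro w hw
    rw [abs_of_pos hρ0] at hw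
    have hw0 := (hsph ρ hρ w hw).2
    rw [mem_sphere, dist_zero_right] at hw
    have hww : (starRingEnd ℂ) w * w = (ρ : ℂ) ^ 2 := by
      rw [mul_comm, Complex.mul_conj, Complex.normSq_eq_norm_sq, hw]
      norm_cast
    have e1 : w ^ (-n) = ((ρ : ℂ) ^ 2) ^ (-n) * (starRingEnd ℂ) (w ^ (-(-n))) := by
      rw [← hww, mul_zpow, neg_neg, map_zpow₀]
      have h0' : (starRingEnd ℂ) w ≠ 0 := by simpa using hw0
      rw [mul_comm ((starRingEnd ℂ) w ^ (-n)), mul_assoc, ← zpow_add₀ h0']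
      simp
    simp only [Pi.add_apply]
    have e2 : ((hd u w * (w * Complex.I)).re : ℂ) =
        (Complex.I * (hd u w * w) + (starRingEnd ℂ) (Complex.I * (hd u w * w))) / 2 := by
      have h5 : hd u w * (w * Complex.I) = Complex.I * (hd u w * w) := by ring
      rw [h5, Complex.add_conj]
      push_cast
      ring
    rw [e2]
    have e3 : (starRingEnd ℂ) (Complex.I * (hd u w * w * w ^ (-(-n)))) =
        (starRingEnd ℂ) (Complex.I * (hd u w * w)) * (starRingEnd ℂ) (w ^ (-(-n))) := by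
      rw [← map_mul]
      congr 1
      ring
    rw [e3]
    have e4 : (starRingEnd ℂ) (Complex.I * (hd u w * w)) * w ^ (-n) =
        ((ρ : ℂ) ^ 2) ^ (-n) * ((starRingEnd ℂ) (Complex.I * (hd u w * w)) *
          (starRingEnd ℂ) (w ^ (-(-n)))) := by
      rw [e1, neg_neg]
      ring
    push_cast
    linear_combination (-1 / 2 : ℂ) * e4
  rw [circleAverage_add (i1.add i2) i3, circleAverage_add i1 i2] at key2
  have s1 : circleAverage (fun w => (Complex.I / 2) * (hd u w * w * w ^ (-n))) 0 ρ =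
      Complex.I / 2 * Z n ρ := by
    have := circleAverage_fun_smul (a := Complex.I / 2) (f := fun w => hd u w * w * w ^ (-n))
      (c := 0) (R := ρ)
    simpa only [smul_eq_mul] using this
  have s2 : circleAverage (fun w => (1 / 2 * ((ρ : ℂ) ^ 2) ^ (-n)) *
      (starRingEnd ℂ) (Complex.I * (hd u w * w * w ^ (-(-n))))) 0 ρ =
      (1 / 2 * ((ρ : ℂ) ^ 2) ^ (-n)) * (starRingEnd ℂ) (Complex.I * Z (-n) ρ) := by
    have t1 := circleAverage_fun_smul (a := (1 / 2 * ((ρ : ℂ) ^ 2) ^ (-n)))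
      (f := fun w => (starRingEnd ℂ) (Complex.I * (hd u w * w * w ^ (-(-n))))) (c := 0) (R := ρ)
    simp only [smul_eq_mul] at t1
    rw [t1]
    congr 1
    have t2 := (Complex.conjCLE : ℂ →L[ℝ] ℂ).circleAverage_comp_comm
      (f := fun w => Complex.I * (hd u w * w * w ^ (-(-n)))) (c := 0) (R := ρ) (by
        apply ContinuousOn.circleIntegrable hρ0.le
        exact continuousOn_const.mul ((hcont_hd.mul continuousOn_id).mul (hcont_z _)))
    have t3 := circleAverage_fun_smul (a := Complex.I)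
      (f := fun w => hd u w * w * w ^ (-(-n))) (c := 0) (R := ρ)
    simp only [smul_eq_mul] at t3
    rw [t3] at t2
    simpa [Function.comp_def, Z] using t2
  have s3 : circleAverage (fun w => (-(n * Complex.I)) * ((u w : ℂ) * w ^ (-n))) 0 ρ =
      (-(n * Complex.I)) * circleAverage (fun w => (u w : ℂ) * w ^ (-n)) 0 ρ := by
    have := circleAverage_fun_smul (a := -(n * Complex.I)) (f := fun w => (u w : ℂ) * w ^ (-n))
      (c := 0) (R := ρ)
    simpa only [smul_eq_mul] using this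
  rw [s1, s2, s3] at key2
  have hfin : circleAverage (fun w => (u w : ℂ) * w ^ (-n)) 0 ρ =
      (Complex.I / 2 * Z n ρ + (1 / 2 * ((ρ : ℂ) ^ 2) ^ (-n)) *
        (starRingEnd ℂ) (Complex.I * Z (-n) ρ)) / (n * Complex.I) := by
    rw [eq_div_iff hnC]
    linear_combination -key2
  rw [hfin]
  ring

end Pool.Agent.Lib.MP_e6ddea_an.Ann
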