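import Mathlib
import Pool.Agent.Lib.MP_e6ddea_an.Ann.Modes
import Pool.Agent.Lib.MP_e6ddea_an.Ann.Fourier

set_option autoImplicit false

open InnerProductSpace Metric Set Filter Topology Real

namespace Pool.Agent.Lib.MP_e6ddea_an.Ann

theorem norm_circleAverage_le {f : ℂ → ℂ} {c : ℂ} {R : ℝ} :
    ‖circleAverage f c R‖ ≤ circleAverage (fun w => ‖f w‖) c R := by
  rw [circleAverage, circleAverage, norm_smul, smul_eq_mul, Real.norm_eq_abs,
    abs_of_pos (by positivity : 0 < (2 * π)⁻¹)]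
  apply mul_le_mul_of_nonneg_left _ (by positivity)
  exact intervalIntegral.norm_integral_le_integral_norm (by positivity)

/-- Uniformity near a circle. -/
theorem unif_circle {F : ℂ → ℝ} {a b c : ℝ} (hF : ContinuousOn F {w | a ≤ ‖w‖ ∧ ‖w‖ ≤ b})
    (h0 : ∀ w : ℂ, ‖w‖ = c → F w = 0) {δ : ℝ} (hδ : 0 < δ) :
    ∀ᶠ ρ in 𝓝[Icc a b] c, ∀ w : ℂ, ‖w‖ = ρ → |F w| < δ := by
  have hA : IsCompact {w : ℂ | a ≤ ‖w‖ ∧ ‖w‖ ≤ b} := by
    apply isCompact_of_isClosed_isBounded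
    · exact (isClosed_le continuous_const continuous_norm).inter
        (isClosed_le continuous_norm continuous_const)
    · apply (isBounded_closedBall (x := (0 : ℂ)) (r := b)).subset
      intro w hw
      simpa using hw.2
  let S : Set ℂ := {w : ℂ | a ≤ ‖w‖ ∧ ‖w‖ ≤ b} ∩ (fun w => |F w|) ⁻¹' (Ici δ)
  have hS : IsCompact S := by
    apply hA.of_isClosed_subset _ inter_subset_left
    exact (continuous_abs.comp_continuousOn hF).preimage_isClosed_of_isClosed hA.isClosed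
      isClosed_Ici
  have hT : IsClosed (norm '' S) := (hS.image continuous_norm).isClosed
  have hc : c ∉ norm '' S := by
    rintro ⟨w, hw, hwc⟩
    have h1 := hw.2
    simp only [mem_preimage, mem_Ici, h0 w hwc, abs_zero] at h1
    linarith
  have h2 : ∀ᶠ ρ in 𝓝 c, ρ ∉ norm '' S := hT.isOpen_compl.mem_nhds hc
  filter_upwards [h2.filter_mono nhdsWithin_le_nhds, self_mem_nhdsWithin] with ρ hρ hρ2 w hw
  by_contra hcon
  push Not at hcon
  exact hρ ⟨w, ⟨⟨by rw [hw]; exact hρ2.1, by rw [hw]; exact hρ2.2⟩, hcon⟩, hw⟩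

theorem avg_pk {ρ : ℝ} (h0 : 0 < ρ) (h1 : ρ < 1) : circleAverage (pk 1) 0 ρ = 1 := by
  rw [InnerProductSpace.HarmonicOnNhd.circleAverage_eq, pk_zero (by simp)]
  intro w hw
  rw [mem_closedBall, dist_zero_right, abs_of_pos h0] at hw
  exact pk_harmonic (by simp) (by linarith)

theorem ci_pk {ρ : ℝ} (h0 : 0 < ρ) (h1 : ρ < 1) : CircleIntegrable (pk 1) 0 ρ := by
  apply ContinuousOn.circleIntegrable h0.le
  intro w hw
  rw [mem_sphere, dist_zero_right] at hw
  exact (pk_harmonic (by simp) (by linarith)).1.continuousAt.continuousWithinAt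

section

variable {r : ℝ} (h0 : 0 < r) (h1 : r < 1)

include h0 h1

theorem avg_lam {ρ : ℝ} (hρ : ρ ∈ Ioo r 1) :
    circleAverage (fun w => (lam (r ^ 2) w).re) 0 ρ = 0 := by
  have hρ0 : 0 < ρ := h0.trans hρ.1
  rw [InnerProductSpace.HarmonicOnNhd.circleAverage_eq, lam_zero, Complex.zero_re]
  intro w hw
  rw [mem_closedBall, dist_zero_right, abs_of_pos hρ0] at hw
  exact (analyticAt_lam (by positivity) (q_lt_one h0 h1)
    (dom_of h0 h1 (by linarith [hρ.2]))).harmonicAt_re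

theorem avg_lam_inv {ρ : ℝ} (hρ : ρ ∈ Ioo r 1) :
    circleAverage (fun w => (lam (r ^ 2) w⁻¹).re) 0 ρ = 0 := by
  have hρ0 : 0 < ρ := h0.trans hρ.1
  have e : circleAverage (fun w => (lam (r ^ 2) w⁻¹).re) 0 ρ =
      circleAverage (fun w => (lam (r ^ 2) (((ρ ^ 2)⁻¹ : ℝ) * w)).re) 0 ρ := by
    apply circleAverage_congr_sphere
    intro w hw
    rw [abs_of_pos hρ0, mem_sphere, dist_zero_right] at hw
    have e1 : w⁻¹ = (starRingEnd ℂ) (((ρ ^ 2)⁻¹ : ℝ) * w) := by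
      rw [Complex.inv_def, Complex.normSq_eq_norm_sq, hw, map_mul, Complex.conj_ofReal, mul_comm]
    simp only
    rw [e1, lam_conj, Complex.conj_re]
  rw [e, InnerProductSpace.HarmonicOnNhd.circleAverage_eq (f := fun w => (lam (r ^ 2) (((ρ ^ 2)⁻¹ : ℝ) * w)).re)]
  · simp [lam_zero]
  · intro w hw
    rw [mem_closedBall, dist_zero_right, abs_of_pos hρ0] at hw
    have h2 : r ^ 2 * ‖(((ρ ^ 2)⁻¹ : ℝ) : ℂ) * w‖ < 1 := by
      rw [norm_mul, Complex.norm_real, Real.norm_eq_abs, abs_of_pos (by positivity)]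
      have h3 : (ρ ^ 2)⁻¹ * ‖w‖ ≤ ρ⁻¹ := by
        calc (ρ ^ 2)⁻¹ * ‖w‖ ≤ (ρ ^ 2)⁻¹ * ρ := mul_le_mul_of_nonneg_left hw (by positivity)
          _ = ρ⁻¹ := by field_simp
      have h4 : r ^ 2 * ρ⁻¹ < 1 := by
        rw [← div_eq_mul_inv, div_lt_one hρ0]
        have := hρ.1
        nlinarith
      have h5 : 0 < r ^ 2 := by positivity
      nlinarith
    have h3 : AnalyticAt ℂ (fun w : ℂ => (((ρ ^ 2)⁻¹ : ℝ) : ℂ) * w) w := by fun_prop
    exact ((analyticAt_lam (by positivity) (q_lt_one h0 h1) h2).comp h3).harmonicAt_re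

theorem avg_KK {ρ : ℝ} (hρ : ρ ∈ Ioo r 1) :
    circleAverage (KK r) 0 ρ = 1 - Real.log ρ / Real.log r := by
  have hρ0 : 0 < ρ := h0.trans hρ.1
  have hsph : ∀ w ∈ sphere (0 : ℂ) ρ, r ^ 2 * ‖w‖ < 1 ∧ r ^ 2 * ‖w⁻¹‖ < 1 ∧ w ≠ 0 := by
    intro w hw
    rw [mem_sphere, dist_zero_right] at hw
    refine ⟨dom_of h0 h1 (by linarith [hρ.2]), dom_inv h0 h1 (by linarith [hρ.1]), ?_⟩
    rintro rfl
    simp at hw
    linarith
  have i1 : CircleIntegrable (pk 1) 0 ρ := ci_pk hρ0 hρ.2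
  have i2 : CircleIntegrable (fun w : ℂ => -(Real.log ‖w‖ / Real.log r)) 0 ρ := by
    apply ContinuousOn.circleIntegrable hρ0.le
    intro w hw
    apply ContinuousAt.continuousWithinAt
    apply ContinuousAt.neg
    apply ContinuousAt.div_const
    exact (continuous_norm.continuousAt).log (by simpa using (hsph w hw).2.2)
  have i3 : CircleIntegrable (fun w : ℂ => (2 : ℝ) * (lam (r ^ 2) w).re) 0 ρ := by
    apply ContinuousOn.circleIntegrable hρ0.le
    intro w hw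
    apply ContinuousAt.continuousWithinAt
    apply ContinuousAt.mul continuousAt_const
    exact Complex.continuous_re.continuousAt.comp
      (analyticAt_lam (by positivity) (q_lt_one h0 h1) (hsph w hw).1).continuousAt
  have i4 : CircleIntegrable (fun w : ℂ => (-2 : ℝ) * (lam (r ^ 2) w⁻¹).re) 0 ρ := by
    apply ContinuousOn.circleIntegrable hρ0.le
    intro w hw
    apply ContinuousAt.continuousWithinAt
    apply ContinuousAt.mul continuousAt_const
    have h3 : ContinuousAt (fun z : ℂ => z⁻¹) w := continuousAt_inv₀ (hsph w hw).2.2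
    have h4 : ContinuousAt (lam (r ^ 2)) w⁻¹ :=
      (analyticAt_lam (by positivity) (q_lt_one h0 h1) (hsph w hw).2.1).continuousAt
    exact Complex.continuous_re.continuousAt.comp (h4.comp h3)
  have e : circleAverage (KK r) 0 ρ = circleAverage (((pk 1 + fun w : ℂ => -(Real.log ‖w‖ /
      Real.log r)) + fun w : ℂ => (2 : ℝ) * (lam (r ^ 2) w).re) +
      fun w : ℂ => (-2 : ℝ) * (lam (r ^ 2) w⁻¹).re) 0 ρ := by
    congr 1
    ext w
    simp only [KK, RR, Pi.add_apply, Complex.sub_re]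
    ring
  rw [e, circleAverage_add ((i1.add i2).add i3) i4, circleAverage_add (i1.add i2) i3,
    circleAverage_add i1 i2, avg_pk hρ0 hρ.2]
  have e1 : circleAverage (fun w : ℂ => -(Real.log ‖w‖ / Real.log r)) 0 ρ =
      -(Real.log ρ / Real.log r) := by
    apply circleAverage_const_on_circle
    intro w hw
    rw [abs_of_pos hρ0, mem_sphere, dist_zero_right] at hw
    rw [hw]
  have e2 : circleAverage (fun w : ℂ => (2 : ℝ) * (lam (r ^ 2) w).re) 0 ρ = 0 := by
    have := circleAverage_fun_smul (a := (2 : ℝ)) (f := fun w : ℂ => (lam (r ^ 2) w).re)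
      (c := 0) (R := ρ)
    simp only [smul_eq_mul] at this
    rw [this, avg_lam h0 h1 hρ, mul_zero]
  have e3 : circleAverage (fun w : ℂ => (-2 : ℝ) * (lam (r ^ 2) w⁻¹).re) 0 ρ = 0 := by
    have := circleAverage_fun_smul (a := (-2 : ℝ)) (f := fun w : ℂ => (lam (r ^ 2) w⁻¹).re)
      (c := 0) (R := ρ)
    simp only [smul_eq_mul] at this
    rw [this, avg_lam_inv h0 h1 hρ, mul_zero]
  rw [e1, e2, e3]
  ring

end

/-- The norm of `w ^ (-n) - 1`. -/
theorem zpow_sub_one_bound (n : ℤ) : ∃ C : ℝ, 0 < C ∧ ∀ w : ℂ, 1 / 2 ≤ ‖w‖ → ‖w‖ ≤ 1 →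
    ‖w ^ (-n) - 1‖ ≤ C * ‖w - 1‖ := by
  have hpow : ∀ m : ℕ, ∀ w : ℂ, ‖w‖ ≤ 1 → ‖w ^ m - 1‖ ≤ m * ‖w - 1‖ := by
    intro m w hw
    induction m with
    | zero => simp
    | succ k ih =>
      have e : w ^ (k + 1) - 1 = w * (w ^ k - 1) + (w - 1) := by ring
      rw [e]
      calc ‖w * (w ^ k - 1) + (w - 1)‖ ≤ ‖w * (w ^ k - 1)‖ + ‖w - 1‖ := norm_add_le _ _
        _ ≤ 1 * (k * ‖w - 1‖) + ‖w - 1‖ := by
          rw [norm_mul]
          have : ‖w‖ * ‖w ^ k - 1‖ ≤ 1 * (k * ‖w - 1‖) :=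
            mul_le_mul hw ih (norm_nonneg _) (by norm_num)
          linarith
        _ = ((k + 1 : ℕ) : ℝ) * ‖w - 1‖ := by push_cast; ring
  refine ⟨(n.natAbs + 1) * 2 ^ n.natAbs, by positivity, ?_⟩
  intro w hw1 hw2
  have hw0 : w ≠ 0 := by
    rintro rfl
    norm_num at hw1
  have h1 : (1 : ℝ) ≤ 2 ^ n.natAbs := one_le_pow₀ (by norm_num)
  have hn1 : (0 : ℝ) ≤ n.natAbs := by positivity
  rcases Int.natAbs_eq n with h | h
  · -- n ≥ 0
    have e : w ^ (-n) - 1 = -(w ^ (-n)) * (w ^ n.natAbs - 1) := by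
      have : w ^ (-n) = (w ^ n.natAbs)⁻¹ := by
        conv_lhs => rw [h]
        rw [zpow_neg, zpow_natCast]
      rw [this]
      field_simp
      ring
    have e2 : ‖w ^ (-n)‖ ≤ 2 ^ n.natAbs := by
      have : w ^ (-n) = (w ^ n.natAbs)⁻¹ := by
        conv_lhs => rw [h]
        rw [zpow_neg, zpow_natCast]
      rw [this, norm_inv, norm_pow, ← inv_pow]
      apply pow_le_pow_left₀ (by positivity)
      rw [inv_le_comm₀ (by linarith) (by norm_num)]
      linarith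
    rw [e, norm_mul, norm_neg]
    calc ‖w ^ (-n)‖ * ‖w ^ n.natAbs - 1‖ ≤ 2 ^ n.natAbs * (n.natAbs * ‖w - 1‖) :=
          mul_le_mul e2 (hpow _ w hw2) (norm_nonneg _) (by positivity)
      _ ≤ _ := by
          have : 0 ≤ 2 ^ n.natAbs * ‖w - 1‖ := by positivity
          nlinarith
  · have e : w ^ (-n) = w ^ n.natAbs := by
      conv_lhs => rw [h]
      rw [neg_neg, zpow_natCast]
    rw [e]
    calc ‖w ^ n.natAbs - 1‖ ≤ n.natAbs * ‖w - 1‖ := hpow _ w hw2
      _ ≤ _ := by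
          have h3 : 0 ≤ ‖w - 1‖ := norm_nonneg _
          apply mul_le_mul_of_nonneg_right _ h3
          nlinarith

/-- Concentration of a kernel at the point `1`. -/
theorem conc {K R : ℂ → ℝ} (hK : ∀ w : ℂ, ‖w‖ < 1 → K w = pk 1 w + R w) {a : ℝ} (ha : a < 1)
    (hR : ContinuousOn R {w | a ≤ ‖w‖ ∧ ‖w‖ ≤ 1}) (hR0 : ∀ w : ℂ, ‖w‖ = 1 → R w = 0) (n : ℤ)
    {η : ℝ} (hη : 0 < η) :
    ∀ᶠ ρ in 𝓝[<] (1 : ℝ), circleAverage (fun w => K w * ‖w ^ (-n) - 1‖) 0 ρ < η := by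
  obtain ⟨C, hC, hCb⟩ := zpow_sub_one_bound n
  have hδ : 0 < η / (4 * C) := by positivity
  have u1 : ∀ᶠ ρ in 𝓝[<] (1 : ℝ), ∀ w : ℂ, ‖w‖ = ρ → |R w| < η / (4 * C) := by
    have h1 := unif_circle hR hR0 hδ
    have h2 : 𝓝[<] (1 : ℝ) ≤ 𝓝[Icc a 1] 1 := by
      rw [nhdsWithin_le_iff]
      have h3 : Ioo a 1 ∈ 𝓝[<] (1 : ℝ) := Ioo_mem_nhdsLT ha
      exact mem_of_superset h3 Ioo_subset_Icc_self
    exact h2 h1
  have u2 : ∀ᶠ ρ in 𝓝[<] (1 : ℝ), C * Real.sqrt (1 - ρ ^ 2) < η / 2 := by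
    have h1 : Tendsto (fun ρ : ℝ => C * Real.sqrt (1 - ρ ^ 2)) (𝓝 1) (𝓝 0) := by
      have : Continuous (fun ρ : ℝ => C * Real.sqrt (1 - ρ ^ 2)) := by fun_prop
      have h2 := this.tendsto 1
      simpa using h2
    exact (h1.eventually (gt_mem_nhds (by positivity))).filter_mono nhdsWithin_le_nhds
  have u3 : Ioo (max a (1 / 2)) 1 ∈ 𝓝[<] (1 : ℝ) := Ioo_mem_nhdsLT (max_lt ha (by norm_num))
  filter_upwards [u1, u2, u3] with ρ h1 h2 h3
  have hρa : a < ρ := lt_of_le_of_lt (le_max_left _ _) h3.1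
  have hρh : 1 / 2 < ρ := lt_of_le_of_lt (le_max_right _ _) h3.1
  have hρ0 : 0 < ρ := by linarith
  have hρ1 : ρ < 1 := h3.2
  set s : ℝ := Real.sqrt (1 - ρ ^ 2) with hs
  have hs2 : s ^ 2 = 1 - ρ ^ 2 := Real.sq_sqrt (by nlinarith)
  have hspos : 0 < s := Real.sqrt_pos.2 (by nlinarith)
  have hcK : ContinuousOn K (sphere 0 ρ) := by
    have hRs : ContinuousOn R (sphere 0 ρ) := by
      apply hR.mono
      intro w hw
      rw [mem_sphere, dist_zero_right] at hw
      exact ⟨by linarith, by linarith⟩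
    have hps : ContinuousOn (pk 1) (sphere 0 ρ) := by
      intro w hw
      rw [mem_sphere, dist_zero_right] at hw
      exact (pk_harmonic (by simp) (by linarith)).1.continuousAt.continuousWithinAt
    apply (hps.add hRs).congr
    intro w hw
    rw [mem_sphere, dist_zero_right] at hw
    exact hK w (by linarith)
  have hcz : ContinuousOn (fun w : ℂ => ‖w ^ (-n) - 1‖) (sphere 0 ρ) := by
    intro w hw
    rw [mem_sphere, dist_zero_right] at hw
    have hw0 : w ≠ 0 := by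
      rintro rfl
      simp at hw
      linarith
    apply ContinuousAt.continuousWithinAt
    exact ((continuousAt_zpow₀ _ _ (Or.inl hw0)).sub continuousAt_const).norm
  have i1 : CircleIntegrable (fun w => K w * ‖w ^ (-n) - 1‖) 0 ρ :=
    ContinuousOn.circleIntegrable hρ0.le (hcK.mul hcz)
  have i2 : CircleIntegrable ((fun w => (C * s / 2) * pk 1 w) + fun _ => C * s / 2 + η / 2) 0 ρ := by
    apply CircleIntegrable.add
    · have := (ci_pk hρ0 hρ1).const_smul (a := C * s / 2)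
      simpa [Pi.smul_def] using this
    · exact circleIntegrable_const _ _ _
  have hle : circleAverage (fun w => K w * ‖w ^ (-n) - 1‖) 0 ρ ≤
      circleAverage ((fun w => (C * s / 2) * pk 1 w) + fun _ => C * s / 2 + η / 2) 0 ρ := by
    apply circleAverage_mono i1 i2
    intro w hw
    rw [abs_of_pos hρ0, mem_sphere, dist_zero_right] at hw
    have hb := hCb w (by linarith) (by linarith)
    have hne : (1 : ℂ) - w ≠ 0 := by
      intro h
      have : w = 1 := by linear_combination -h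
      rw [this, norm_one] at hw
      linarith
    have hd : 0 < ‖1 - w‖ := norm_pos_iff.2 hne
    have hpk : pk 1 w = s ^ 2 / ‖1 - w‖ ^ 2 := by
      rw [pk_eq (by simp), hw, hs2]
    have hpk0 : 0 < pk 1 w := pk_pos (by simp) (by linarith)
    have e1 : pk 1 w * ‖w - 1‖ ≤ s / 2 * pk 1 w + s / 2 := by
      rw [norm_sub_rev, hpk]
      have : 0 ≤ s / 2 * (s / ‖1 - w‖ - 1) ^ 2 := by positivity
      have e2 : s / 2 * (s / ‖1 - w‖ - 1) ^ 2 =
          s / 2 * (s ^ 2 / ‖1 - w‖ ^ 2) + s / 2 - s ^ 2 / ‖1 - w‖ ^ 2 * ‖1 - w‖ := by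
        field_simp
        ring
      linarith
    have e3 : ‖w - 1‖ ≤ 2 := by
      calc ‖w - 1‖ ≤ ‖w‖ + ‖(1 : ℂ)‖ := norm_sub_le _ _
        _ ≤ 2 := by rw [norm_one]; linarith
    have e4 : R w * ‖w ^ (-n) - 1‖ ≤ η / 2 := by
      calc R w * ‖w ^ (-n) - 1‖ ≤ |R w| * ‖w ^ (-n) - 1‖ :=
            mul_le_mul_of_nonneg_right (le_abs_self _) (norm_nonneg _)
        _ ≤ η / (4 * C) * (C * 2) := by
            apply mul_le_mul (h1 w hw).le _ (norm_nonneg _) hδ.le
            exact hb.trans (mul_le_mul_of_nonneg_left e3 hC.le)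
        _ = η / 2 := by field_simp; ring
    have e5 : pk 1 w * ‖w ^ (-n) - 1‖ ≤ C * (s / 2 * pk 1 w + s / 2) := by
      calc pk 1 w * ‖w ^ (-n) - 1‖ ≤ pk 1 w * (C * ‖w - 1‖) :=
            mul_le_mul_of_nonneg_left hb hpk0.le
        _ = C * (pk 1 w * ‖w - 1‖) := by ring
        _ ≤ _ := mul_le_mul_of_nonneg_left e1 hC.le
    simp only [Pi.add_apply]
    rw [hK w (by linarith), add_mul]
    linarith
  have i3 : CircleIntegrable (fun w => (C * s / 2) * pk 1 w) 0 ρ := by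
    have := (ci_pk hρ0 hρ1).const_smul (a := C * s / 2)
    simpa [Pi.smul_def] using this
  have e6 : circleAverage ((fun w => (C * s / 2) * pk 1 w) + fun _ => C * s / 2 + η / 2) 0 ρ =
      C * s + η / 2 := by
    rw [circleAverage_add i3 (circleIntegrable_const _ _ _), circleAverage_const]
    have := circleAverage_fun_smul (a := C * s / 2) (f := pk 1) (c := 0) (R := ρ)
    simp only [smul_eq_mul] at this
    rw [this, avg_pk hρ0 hρ1]
    ring
  rw [e6] at hle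
  linarith

end Pool.Agent.Lib.MP_e6ddea_an.Ann
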