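import Mathlib
import Pool.Agent.Lib.MP_e6ddea_an.Ann.Averages

set_option autoImplicit false

open InnerProductSpace Metric Set Filter Topology Real

namespace Pool.Agent.Lib.MP_e6ddea_an.Ann

theorem sphere_sub_An {r ρ : ℝ} (hρ : ρ ∈ Ioo r 1) : sphere (0 : ℂ) ρ ⊆ An r := by
  intro w hw
  rw [mem_sphere, dist_zero_right] at hw
  exact ⟨by rw [hw]; exact hρ.1, by rw [hw]; exact hρ.2⟩

theorem An_ne_zero {r : ℝ} (hr : 0 ≤ r) {w : ℂ} (hw : w ∈ An r) : w ≠ 0 := by
  rintro rfl
  have := hw.1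
  simp at this
  linarith

/-- The modes of a function between `0` and `K` are close to its average. -/
theorem mode_close {r : ℝ} (hr : 0 ≤ r) {K u : ℂ → ℝ} (hKc : ContinuousOn K (An r))
    (huc : ContinuousOn u (An r)) (hle : ∀ w ∈ An r, 0 ≤ u w ∧ u w ≤ K w) (n : ℤ)
    {ρ : ℝ} (hρ : ρ ∈ Ioo r 1) :
    ‖circleAverage (fun w => (u w : ℂ) * w ^ (-n)) 0 ρ - ((circleAverage u 0 ρ : ℝ) : ℂ)‖ ≤
      circleAverage (fun w => K w * ‖w ^ (-n) - 1‖) 0 ρ := by
  have hρ0 : 0 < ρ := lt_of_le_of_lt hr hρ.1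
  have hs := sphere_sub_An hρ
  have hcz : ContinuousOn (fun w : ℂ => w ^ (-n)) (sphere 0 ρ) := fun w hw =>
    (continuousAt_zpow₀ _ _ (Or.inl (An_ne_zero hr (hs hw)))).continuousWithinAt
  have hcu : ContinuousOn (fun w => (u w : ℂ)) (sphere 0 ρ) :=
    Complex.continuous_ofReal.comp_continuousOn (huc.mono hs)
  have e0 : ((circleAverage u 0 ρ : ℝ) : ℂ) = circleAverage (fun w => (u w : ℂ)) 0 ρ := by
    have := (Complex.ofRealCLM).circleAverage_comp_comm (f := u) (c := 0) (R := ρ)
      (ContinuousOn.circleIntegrable hρ0.le (huc.mono hs))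
    simpa [Function.comp_def] using this.symm
  have i1 : CircleIntegrable (fun w => (u w : ℂ) * w ^ (-n)) 0 ρ :=
    ContinuousOn.circleIntegrable hρ0.le (hcu.mul hcz)
  have i2 : CircleIntegrable (fun w => (u w : ℂ)) 0 ρ := ContinuousOn.circleIntegrable hρ0.le hcu
  rw [e0, ← circleAverage_sub i1 i2]
  refine norm_circleAverage_le.trans ?_
  apply circleAverage_mono
  · apply ContinuousOn.circleIntegrable hρ0.le
    exact ((hcu.mul hcz).sub hcu).norm
  · apply ContinuousOn.circleIntegrable hρ0.le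
    exact (hKc.mono hs).mul ((hcz.sub continuousOn_const).norm)
  · intro w hw
    rw [abs_of_pos hρ0] at hw
    have h1 := hle w (hs hw)
    simp only [Pi.sub_apply]
    have e : (u w : ℂ) * w ^ (-n) - (u w : ℂ) = (u w : ℂ) * (w ^ (-n) - 1) := by ring
    rw [e, norm_mul, Complex.norm_real, Real.norm_eq_abs, abs_of_nonneg h1.1]
    exact mul_le_mul_of_nonneg_right h1.2 (norm_nonneg _)

/-- Package of hypotheses on the outer behaviour of a kernel. -/
structure Outer (r : ℝ) (K : ℂ → ℝ) : Prop where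
  harm : HarmonicOnNhd K (An r)
  nonneg : ∀ w ∈ An r, 0 ≤ K w
  avg : Tendsto (fun ρ => circleAverage K 0 ρ) (𝓝[<] 1) (𝓝 1)
  conc : ∀ n : ℤ, ∀ η : ℝ, 0 < η →
    ∀ᶠ ρ in 𝓝[<] (1 : ℝ), circleAverage (fun w => K w * ‖w ^ (-n) - 1‖) 0 ρ < η

theorem outer_limit {r : ℝ} (hr : 0 ≤ r) (hr1 : r < 1) {K u : ℂ → ℝ} (hK : Outer r K)
    (hu : HarmonicOnNhd u (An r)) (hle : ∀ w ∈ An r, 0 ≤ u w ∧ u w ≤ K w)
    {F : Filter ℝ} (hF : F ≤ 𝓝[<] 1) {c : ℝ} (hc : Tendsto (fun ρ => circleAverage u 0 ρ) F (𝓝 c))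
    (n : ℤ) :
    Tendsto (fun ρ => circleAverage (fun w => (u w : ℂ) * w ^ (-n)) 0 ρ) F (𝓝 (c : ℂ)) := by
  have h1 : Tendsto (fun ρ => ((circleAverage u 0 ρ : ℝ) : ℂ)) F (𝓝 (c : ℂ)) :=
    (Complex.continuous_ofReal.tendsto c).comp hc
  have h2 : Tendsto (fun ρ => circleAverage (fun w => (u w : ℂ) * w ^ (-n)) 0 ρ -
      ((circleAverage u 0 ρ : ℝ) : ℂ)) F (𝓝 0) := by
    rw [Metric.tendsto_nhds]
    intro η hη
    have h3 := hF (hK.conc n η hη)
    have h4 : Ioo r 1 ∈ F := hF (Ioo_mem_nhdsLT hr1)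
    filter_upwards [h3, h4] with ρ h5 h6
    rw [dist_zero_right]
    exact (mode_close hr hK.harm.continuousOn hu.continuousOn hle n h6).trans_lt h5
  have h3 := h2.add h1
  simpa using h3

/-- Existence of a limit mass along a filter. -/
theorem exists_mass {r : ℝ} (hr : 0 ≤ r) (hr1 : r < 1) {K u : ℂ → ℝ} (hK : Outer r K)
    (hu : HarmonicOnNhd u (An r)) (hle : ∀ w ∈ An r, 0 ≤ u w ∧ u w ≤ K w) :
    ∃ (F : Filter ℝ) (c : ℝ), F.NeBot ∧ F ≤ 𝓝[<] 1 ∧
      Tendsto (fun ρ => circleAverage u 0 ρ) F (𝓝 c) := by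
  let G : Ultrafilter ℝ := Ultrafilter.of (𝓝[<] (1 : ℝ))
  have hG : (G : Filter ℝ) ≤ 𝓝[<] 1 := Ultrafilter.of_le _
  have h1 : ∀ᶠ ρ in 𝓝[<] (1 : ℝ), circleAverage u 0 ρ ∈ Icc (0 : ℝ) 2 := by
    have h2 : ∀ᶠ ρ in 𝓝[<] (1 : ℝ), circleAverage K 0 ρ < 2 :=
      hK.avg.eventually (gt_mem_nhds (by norm_num))
    filter_upwards [h2, Ioo_mem_nhdsLT hr1] with ρ h3 hρ
    have hρ0 : 0 < ρ := lt_of_le_of_lt hr hρ.1
    have hs := sphere_sub_An hρ
    have i1 := ContinuousOn.circleIntegrable hρ0.le (hu.continuousOn.mono hs)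
    have i2 := ContinuousOn.circleIntegrable hρ0.le (hK.harm.continuousOn.mono hs)
    refine ⟨?_, ?_⟩
    · apply circleAverage_nonneg_of_nonneg
      intro w hw
      rw [abs_of_pos hρ0] at hw
      exact (hle w (hs hw)).1
    · have := circleAverage_mono i1 i2 (by
        intro w hw
        rw [abs_of_pos hρ0] at hw
        exact (hle w (hs hw)).2)
      linarith
  have h2 : (G.map (fun ρ => circleAverage u 0 ρ) : Filter ℝ) ≤ 𝓟 (Icc (0 : ℝ) 2) := by
    rw [le_principal_iff]
    exact hG h1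
  obtain ⟨c, _, hc⟩ := isCompact_Icc.ultrafilter_le_nhds _ h2
  exact ⟨G, c, G.neBot, hG, hc⟩

/-- If all nonconstant modes vanish then the function is radial. -/
theorem radial_of_modes {r : ℝ} (hr : 0 ≤ r) {d : ℂ → ℝ} (hd : ContinuousOn d (An r))
    (hm : ∀ n : ℤ, n ≠ 0 → ∀ ρ ∈ Ioo r 1, circleAverage (fun w => (d w : ℂ) * w ^ (-n)) 0 ρ = 0) :
    ∀ w ∈ An r, d w = circleAverage d 0 ‖w‖ := by
  intro w hw
  have hρ : ‖w‖ ∈ Ioo r 1 := hw
  exact const_of_modes (lt_of_le_of_lt hr hρ.1) (hd.mono (sphere_sub_An hρ))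
    (fun n hn => hm n hn _ hρ) w (by simp)

/-- A radial harmonic function with small boundary values vanishes. -/
theorem radial_zero {r : ℝ} (hr : 0 ≤ r) {d : ℂ → ℝ} (hdh : HarmonicOnNhd d (An r))
    (hrad : ∀ w ∈ An r, d w = circleAverage d 0 ‖w‖)
    {F : Filter ℝ} (hFne : F.NeBot) (hF : F ≤ 𝓝[<] 1)
    (hlim : Tendsto (fun ρ => circleAverage d 0 ρ) F (𝓝 0))
    {b : ℂ → ℝ} (hb : HarmonicOnNhd b (An r)) (hbpos : ∀ w ∈ An r, 0 ≤ b w)
    (hin : ∀ ε : ℝ, 0 < ε → ∀ δ : ℝ, 0 < δ → ∀ p : ℂ, ‖p‖ = r → ∀ᶠ z in 𝓝 p, z ∈ An r →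
      |d z| < δ + ε * b z) :
    ∀ w ∈ An r, d w = 0 := by
  have hr1 : ∀ w ∈ An r, r < 1 := fun w hw => hw.1.trans hw.2
  -- main estimate for both signs
  have main : ∀ σ : ℝ, (σ = 1 ∨ σ = -1) → ∀ ε : ℝ, 0 < ε → ∀ δ : ℝ, 0 < δ → ∀ w ∈ An r,
      0 ≤ δ + ε * b w + σ * d w := by
    intro σ hσ ε hε δ hδ w hw
    have hσabs : |σ| = 1 := by
      rcases hσ with h | h <;> rw [h] <;> simp
    have h1 : ∀ᶠ ρ in F, |circleAverage d 0 ρ| < δ := by
      have := hlim.eventually (Metric.ball_mem_nhds 0 hδ)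
      filter_upwards [this] with ρ h2
      simpa [Real.dist_eq] using h2
    have h2 : Ioo ‖w‖ 1 ∈ F := hF (Ioo_mem_nhdsLT hw.2)
    obtain ⟨ρ, h3, h4⟩ := (h1.and h2).exists
    have hρ : ρ ∈ Ioo r 1 := ⟨hw.1.trans h4.1, h4.2⟩
    let U : Set ℂ := An r ∩ ball 0 ρ
    have hU : IsOpen U := (isOpen_An r).inter isOpen_ball
    have hUb : Bornology.IsBounded U := (isBounded_An r).subset inter_subset_left
    have hh : HarmonicOnNhd (fun z => δ + ε * b z + σ * d z) U := by
      intro z hz
      have a1 := (harmonicAt_const (x := z) δ)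
      have a2 := (hb z hz.1).const_smul (c := ε)
      have a3 := (hdh z hz.1).const_smul (c := σ)
      exact (a1.add a2).add a3
    refine weak_min_bd hU hUb hh ?_ w ⟨hw, by simpa using h4.1⟩
    intro p hp hpU η hη
    have hcl : closure U ⊆ {w | r ≤ ‖w‖ ∧ ‖w‖ ≤ ρ} := by
      apply closure_minimal
      · rintro z ⟨hz1, hz2⟩
        rw [mem_ball, dist_zero_right] at hz2
        exact ⟨hz1.1.le, hz2.le⟩
      · exact (isClosed_le continuous_const continuous_norm).inter
          (isClosed_le continuous_norm continuous_const)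
    obtain ⟨hp1, hp2⟩ := hcl hp
    rcases hp1.eq_or_lt with h | h
    · -- inner circle
      filter_upwards [hin ε hε δ hδ p h.symm] with z hz hzU
      have h5 := hz hzU.1
      have h6 : |σ * d z| < δ + ε * b z := by rw [abs_mul, hσabs, one_mul]; exact h5
      have h7 := neg_abs_le (σ * d z)
      linarith
    · -- outer circle
      have hpρ : ‖p‖ = ρ := by
        rcases hp2.eq_or_lt with h' | h'
        · exact h'
        · exact absurd ⟨⟨h, by linarith [hρ.2]⟩, by simpa using h'⟩ hpU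
      have hpA : p ∈ An r := ⟨h, by rw [hpρ]; exact hρ.2⟩
      have hdp : |d p| < δ := by rw [hrad p hpA, hpρ]; exact h3
      have hcont : ContinuousAt (fun z => δ + ε * b z + σ * d z) p := by
        have a1 : ContinuousAt b p := (hb p hpA).1.continuousAt
        have a2 : ContinuousAt d p := (hdh p hpA).1.continuousAt
        exact (continuousAt_const.add (continuousAt_const.mul a1)).add (continuousAt_const.mul a2)
      have hval : 0 < δ + ε * b p + σ * d p := by
        have h6 : |σ * d p| < δ := by rw [abs_mul, hσabs, one_mul]; exact hdp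
        have h7 := neg_abs_le (σ * d p)
        have h8 := mul_nonneg hε.le (hbpos p hpA)
        linarith
      filter_upwards [hcont.eventually (lt_mem_nhds hval)] with z hz _
      linarith
  intro w hw
  by_contra hne
  have hbw := hbpos w hw
  have habs : 0 < |d w| := abs_pos.2 hne
  have m1 := main 1 (Or.inl rfl) (|d w| / (4 * (b w + 1))) (by positivity) (|d w| / 4)
    (by positivity) w hw
  have m2 := main (-1) (Or.inr rfl) (|d w| / (4 * (b w + 1))) (by positivity) (|d w| / 4)
    (by positivity) w hw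
  have e : |d w| / (4 * (b w + 1)) * b w ≤ |d w| / 4 := by
    rw [div_mul_eq_mul_div, div_le_div_iff₀ (by positivity) (by norm_num)]
    nlinarith
  rcases abs_cases (d w) with ⟨h, _⟩ | ⟨h, _⟩ <;> nlinarith

theorem outer_KK {r : ℝ} (h0 : 0 < r) (h1 : r < 1) : Outer r (KK r) where
  harm := fun w hw => harmonicAt_KK h0 h1 hw
  nonneg := KK_nonneg h0 h1
  avg := by
    have h2 : Tendsto (fun ρ : ℝ => 1 - Real.log ρ / Real.log r) (𝓝[<] 1) (𝓝 1) := by
      have h3 : ContinuousAt (fun ρ : ℝ => 1 - Real.log ρ / Real.log r) 1 := by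
        apply ContinuousAt.sub continuousAt_const
        apply ContinuousAt.div_const
        exact Real.continuousAt_log one_ne_zero
      have h4 := h3.tendsto
      simp only [Real.log_one, zero_div, sub_zero] at h4
      exact h4.mono_left nhdsWithin_le_nhds
    apply h2.congr'
    filter_upwards [Ioo_mem_nhdsLT h1] with ρ hρ
    exact (avg_KK h0 h1 hρ).symm
  conc := by
    intro n η hη
    apply Ann.conc (K := KK r) (R := RR r) (fun w _ => rfl) h1 _ (fun w hw => RR_outer h0 h1 hw) n hη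
    intro w hw
    have hw0 : w ≠ 0 := by
      rintro rfl
      have := hw.1
      simp at this
      linarith
    exact (harmonicAt_RR h0 h1 (dom_of h0 h1 hw.2) (dom_inv h0 h1 hw.1)
      hw0).1.continuousAt.continuousWithinAt

/-- The kernel of the annulus is minimal. -/
theorem KK_minimal {r : ℝ} (h0 : 0 < r) (h1 : r < 1) (u : ℂ → ℝ) (hu : HarmonicOnNhd u (An r))
    (hle : ∀ w ∈ An r, 0 < u w ∧ u w ≤ KK r w) : ∃ c : ℝ, ∀ w ∈ An r, u w = c * KK r w := by
  have hO := outer_KK h0 h1
  have hle' : ∀ w ∈ An r, 0 ≤ u w ∧ u w ≤ KK r w := fun w hw => ⟨(hle w hw).1.le, (hle w hw).2⟩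
  obtain ⟨F, c, hFne, hF, hc⟩ := exists_mass h0.le h1 hO hu hle'
  refine ⟨c, ?_⟩
  let d : ℂ → ℝ := fun w => u w - c * KK r w
  have hdh : HarmonicOnNhd d (An r) := by
    intro w hw
    exact (hu w hw).sub ((hO.harm w hw).const_smul (c := c))
  -- uniform decay at the inner circle
  have hdecay : ∀ δ : ℝ, 0 < δ → ∀ᶠ ρ in 𝓝[>] r, ∀ w : ℂ, ‖w‖ = ρ → |KK r w| < δ := by
    intro δ hδ
    have hcont : ContinuousOn (KK r) {w | r ≤ ‖w‖ ∧ ‖w‖ ≤ (1 + r) / 2} := by
      intro w hw
      have hw0 : w ≠ 0 := by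
        rintro rfl
        have := hw.1
        simp at this
        linarith
      have hw1 : ‖w‖ < 1 := by linarith [hw.2]
      apply ContinuousAt.continuousWithinAt
      exact ((pk_harmonic (ω := 1) (by simp) hw1).1.continuousAt).add
        (harmonicAt_RR h0 h1 (dom_of h0 h1 hw1.le) (dom_inv h0 h1 hw.1) hw0).1.continuousAt
    have h2 := unif_circle hcont (fun w hw => KK_inner h0 h1 hw) hδ
    have h3 : 𝓝[>] r ≤ 𝓝[Icc r ((1 + r) / 2)] r := by
      rw [nhdsWithin_le_iff]
      exact mem_of_superset (Ioo_mem_nhdsGT (show r < (1 + r) / 2 by linarith)) Ioo_subset_Icc_self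
    exact h3 h2
  have hdle : ∀ w ∈ An r, |d w| ≤ (1 + |c|) * KK r w := by
    intro w hw
    have h2 := hle' w hw
    have h3 := hO.nonneg w hw
    calc |u w - c * KK r w| ≤ |u w| + |c * KK r w| := abs_sub _ _
      _ = u w + |c| * KK r w := by rw [abs_of_nonneg h2.1, abs_mul, abs_of_nonneg h3]
      _ ≤ _ := by linarith
  -- modes of d vanish
  have hmodes : ∀ n : ℤ, n ≠ 0 → ∀ ρ ∈ Ioo r 1,
      circleAverage (fun w => (d w : ℂ) * w ^ (-n)) 0 ρ = 0 := by
    intro n hn
    obtain ⟨α, β, hαβ⟩ := modes h0.le hdh hn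
    -- outer limit
    have l1 := outer_limit h0.le h1 hO hu hle' hF hc n
    have l2 := outer_limit h0.le h1 hO hO.harm (fun w hw => ⟨hO.nonneg w hw, le_rfl⟩) hF
      (hO.avg.mono_left hF) n
    have l3 : Tendsto (fun ρ => circleAverage (fun w => (d w : ℂ) * w ^ (-n)) 0 ρ) F (𝓝 0) := by
      have l4 := l1.sub (l2.const_mul (c : ℂ))
      simp only [Complex.ofReal_one, mul_one, sub_self] at l4
      apply l4.congr'
      filter_upwards [hF (Ioo_mem_nhdsLT h1)] with ρ hρ
      have hρ0 : 0 < ρ := h0.trans hρ.1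
      have hs := sphere_sub_An hρ
      have hcz : ContinuousOn (fun w : ℂ => w ^ (-n)) (sphere 0 ρ) := fun w hw =>
        (continuousAt_zpow₀ _ _ (Or.inl (An_ne_zero h0.le (hs hw)))).continuousWithinAt
      have hcu : ContinuousOn (fun w => (u w : ℂ)) (sphere 0 ρ) :=
        Complex.continuous_ofReal.comp_continuousOn (hu.continuousOn.mono hs)
      have hcK : ContinuousOn (fun w => (KK r w : ℂ)) (sphere 0 ρ) :=
        Complex.continuous_ofReal.comp_continuousOn (hO.harm.continuousOn.mono hs)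
      have e1 := circleAverage_fun_smul (a := (c : ℂ)) (f := fun w => (KK r w : ℂ) * w ^ (-n))
        (c := 0) (R := ρ)
      simp only [smul_eq_mul] at e1
      have i1 : CircleIntegrable (fun w => (u w : ℂ) * w ^ (-n)) 0 ρ :=
        ContinuousOn.circleIntegrable hρ0.le (hcu.mul hcz)
      have i2 : CircleIntegrable (fun w => (c : ℂ) * ((KK r w : ℂ) * w ^ (-n))) 0 ρ :=
        ContinuousOn.circleIntegrable hρ0.le (continuousOn_const.mul (hcK.mul hcz))
      rw [← e1, ← circleAverage_sub i1 i2]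
      congr 1
      ext w
      simp only [Pi.sub_apply, d]
      push_cast
      ring
    have hlimF : Tendsto (fun ρ : ℝ => α + β * ((ρ : ℂ) ^ 2) ^ (-n)) F (𝓝 (α + β)) := by
      have hc1 : ContinuousAt (fun ρ : ℝ => α + β * ((ρ : ℂ) ^ 2) ^ (-n)) 1 := by
        apply ContinuousAt.add continuousAt_const
        apply ContinuousAt.mul continuousAt_const
        apply ContinuousAt.zpow₀ (by fun_prop)
        left
        simp
      have := hc1.tendsto
      simp only [Complex.ofReal_one, one_pow, one_zpow, mul_one] at this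
      exact this.mono_left (hF.trans nhdsWithin_le_nhds)
    have hab : α + β = 0 := by
      have l5 : Tendsto (fun ρ : ℝ => α + β * ((ρ : ℂ) ^ 2) ^ (-n)) F (𝓝 0) := by
        apply l3.congr'
        filter_upwards [hF (Ioo_mem_nhdsLT h1)] with ρ hρ
        exact hαβ ρ hρ
      exact tendsto_nhds_unique hlimF l5
    -- inner limit
    have hlimr : Tendsto (fun ρ : ℝ => α + β * ((ρ : ℂ) ^ 2) ^ (-n)) (𝓝[>] r)
        (𝓝 (α + β * ((r : ℂ) ^ 2) ^ (-n))) := by
      have hc1 : ContinuousAt (fun ρ : ℝ => α + β * ((ρ : ℂ) ^ 2) ^ (-n)) r := by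
        apply ContinuousAt.add continuousAt_const
        apply ContinuousAt.mul continuousAt_const
        apply ContinuousAt.zpow₀ (by fun_prop)
        left
        exact pow_ne_zero _ (by exact_mod_cast h0.ne')
      exact hc1.tendsto.mono_left nhdsWithin_le_nhds
    have hr0 : α + β * ((r : ℂ) ^ 2) ^ (-n) = 0 := by
      have l5 : Tendsto (fun ρ : ℝ => α + β * ((ρ : ℂ) ^ 2) ^ (-n)) (𝓝[>] r) (𝓝 0) := by
        have l6 : Tendsto (fun ρ : ℝ => circleAverage (fun w => (d w : ℂ) * w ^ (-n)) 0 ρ) (𝓝[>] r)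
            (𝓝 0) := by
          rw [Metric.tendsto_nhds]
          intro η hη
          set M : ℝ := max (r ^ (-n)) 1 with hM
          have hMpos : 0 < M := lt_of_lt_of_le one_pos (le_max_right _ _)
          have hδ : 0 < η / (2 * ((1 + |c|) * M)) := by positivity
          filter_upwards [hdecay _ hδ, Ioo_mem_nhdsGT h1] with ρ h5 hρ
          have hρ0 : 0 < ρ := h0.trans hρ.1
          have hs := sphere_sub_An hρ
          rw [dist_zero_right]
          refine norm_circleAverage_le.trans_lt ?_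
          have hcz : ContinuousOn (fun w : ℂ => w ^ (-n)) (sphere 0 ρ) := fun w hw =>
            (continuousAt_zpow₀ _ _ (Or.inl (An_ne_zero h0.le (hs hw)))).continuousWithinAt
          have hcd : ContinuousOn (fun w => (d w : ℂ)) (sphere 0 ρ) :=
            Complex.continuous_ofReal.comp_continuousOn (hdh.continuousOn.mono hs)
          have hb : circleAverage (fun w => ‖(d w : ℂ) * w ^ (-n)‖) 0 ρ ≤ η / 2 := by
            apply circleAverage_mono_on_of_le_circle
            · exact ContinuousOn.circleIntegrable hρ0.le ((hcd.mul hcz).norm)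
            · intro w hw
              rw [abs_of_pos hρ0] at hw
              have hwA := hs hw
              rw [mem_sphere, dist_zero_right] at hw
              have h6 := hdle w hwA
              have h7 := h5 w hw
              rw [abs_of_nonneg (hO.nonneg w hwA)] at h7
              rw [norm_mul, Complex.norm_real, Real.norm_eq_abs, norm_zpow, hw]
              have h8 : ρ ^ (-n) ≤ M := by
                rcases le_or_gt 0 n with hn0 | hn0
                · refine le_trans ?_ (le_max_left _ _)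
                  rw [zpow_neg, zpow_neg]
                  apply inv_anti₀ (zpow_pos h0 n)
                  exact zpow_le_zpow_left₀ hn0 h0.le hρ.1.le
                · refine le_trans ?_ (le_max_right _ _)
                  exact zpow_le_one₀ hρ0 hρ.2.le (by omega)
              have h9 : 0 ≤ ρ ^ (-n) := (zpow_pos hρ0 _).le
              calc |d w| * ρ ^ (-n) ≤ ((1 + |c|) * (η / (2 * ((1 + |c|) * M)))) * M := by
                    apply mul_le_mul _ h8 h9 (by positivity)
                    exact h6.trans (mul_le_mul_of_nonneg_left h7.le (by positivity))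
                _ = η / 2 := by field_simp
          linarith
        apply l6.congr'
        filter_upwards [Ioo_mem_nhdsGT h1] with ρ hρ
        exact hαβ ρ hρ
      exact tendsto_nhds_unique hlimr l5
    have hrn : ((r : ℂ) ^ 2) ^ (-n) ≠ 1 := by
      intro h
      have h2 : ((r ^ 2 : ℝ)) ^ (-n) = 1 := by exact_mod_cast h
      have h3 : (0 : ℝ) < r ^ 2 := by positivity
      have h4 : r ^ 2 < 1 := q_lt_one h0 h1
      have h5 : -n = 0 := by
        by_contra hne
        have := zpow_right_injective₀ h3 h4.ne (a₁ := -n) (a₂ := 0) (by simpa using h2)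
        exact hne this
      exact hn (by omega)
    have hβ : β = 0 := by
      have h2 : β * (((r : ℂ) ^ 2) ^ (-n) - 1) = 0 := by linear_combination hr0 - hab
      rcases mul_eq_zero.1 h2 with h | h
      · exact h
      · exact absurd (sub_eq_zero.1 h) hrn
    have hα : α = 0 := by rw [hβ, add_zero] at hab; exact hab
    intro ρ hρ
    rw [hαβ ρ hρ, hα, hβ]
    simp
  have hrad := radial_of_modes h0.le hdh.continuousOn hmodes
  have hlim0 : Tendsto (fun ρ => circleAverage d 0 ρ) F (𝓝 0) := by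
    have l4 := hc.sub ((hO.avg.mono_left hF).const_mul c)
    simp only [mul_one, sub_self] at l4
    apply l4.congr'
    filter_upwards [hF (Ioo_mem_nhdsLT h1)] with ρ hρ
    have hρ0 : 0 < ρ := h0.trans hρ.1
    have hs := sphere_sub_An hρ
    have e1 := circleAverage_fun_smul (a := c) (f := KK r) (c := 0) (R := ρ)
    simp only [smul_eq_mul] at e1
    have i1 : CircleIntegrable u 0 ρ :=
      ContinuousOn.circleIntegrable hρ0.le (hu.continuousOn.mono hs)
    have i2 : CircleIntegrable (fun w => c * KK r w) 0 ρ :=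
      ContinuousOn.circleIntegrable hρ0.le
        (continuousOn_const.mul (hO.harm.continuousOn.mono hs))
    rw [← e1, ← circleAverage_sub i1 i2]
    rfl
  have hzero := radial_zero h0.le hdh hrad hFne hF hlim0 (b := fun _ => 0)
    (fun w _ => harmonicAt_const 0) (fun w _ => le_rfl) (by
      intro ε hε δ hδ p hp
      have hp1 : ‖p‖ < 1 := by rw [hp]; exact h1
      have hp0 : p ≠ 0 := by
        rintro rfl
        simp at hp
        linarith
      have hcont : ContinuousAt (KK r) p :=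
        ((pk_harmonic (ω := 1) (by simp) hp1).1.continuousAt).add
          (harmonicAt_RR h0 h1 (dom_of h0 h1 hp1.le) (dom_inv h0 h1 hp.ge) hp0).1.continuousAt
      have h5 : ∀ᶠ z in 𝓝 p, KK r z < δ / (1 + |c|) := by
        apply hcont.eventually (gt_mem_nhds _)
        rw [KK_inner h0 h1 hp]
        positivity
      filter_upwards [h5] with z hz hzA
      have h6 := hdle z hzA
      rw [lt_div_iff₀ (by positivity)] at hz
      linarith)
  intro w hw
  have := hzero w hw
  simp only [d] at this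
  linarith

end Pool.Agent.Lib.MP_e6ddea_an.Ann
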