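import Mathlib
import Pool.Agent.Lib.MP_e6ddea_an.Ann.MinimalA

set_option autoImplicit false

open InnerProductSpace Metric Set Filter Topology Real

namespace Pool.Agent.Lib.MP_e6ddea_an.Ann

theorem isPreconnected_An {r : ℝ} (hr : 0 ≤ r) : IsPreconnected (An r) := by
  have h1 : An r = (fun p : ℝ × ℝ => (p.1 : ℂ) * Complex.exp (p.2 * Complex.I)) ''
      (Ioo r 1 ×ˢ univ) := by
    ext w
    constructor
    · intro hw
      refine ⟨(‖w‖, w.arg), ⟨hw, mem_univ _⟩, ?_⟩
      exact Complex.norm_mul_exp_arg_mul_I w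
    · rintro ⟨⟨ρ, θ⟩, ⟨hρ, _⟩, rfl⟩
      have h2 : ‖(ρ : ℂ) * Complex.exp (θ * Complex.I)‖ = ρ := by
        rw [norm_mul, Complex.norm_exp_ofReal_mul_I, mul_one, Complex.norm_real, Real.norm_eq_abs,
          abs_of_pos (lt_of_le_of_lt hr hρ.1)]
      exact ⟨by simp only [h2]; exact hρ.1, by simp only [h2]; exact hρ.2⟩
  rw [h1]
  apply IsPreconnected.image
  · exact isPreconnected_Ioo.prod isPreconnected_univ
  · fun_prop

theorem KK_pos {r : ℝ} (h0 : 0 < r) (h1 : r < 1) : ∀ w ∈ An r, 0 < KK r w := by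
  intro w hw
  rcases (KK_nonneg h0 h1 w hw).eq_or_lt with h | h
  swap
  · exact h
  exfalso
  have hz := strong_min (isOpen_An r) (isPreconnected_An h0.le)
    (fun z hz => harmonicAt_KK h0 h1 hz) (KK_nonneg h0 h1) hw h.symm
  have hρ : ‖w‖ ∈ Ioo r 1 := hw
  have hρ0 : 0 < ‖w‖ := h0.trans hρ.1
  have e1 := avg_KK h0 h1 hρ
  have e2 : circleAverage (KK r) 0 ‖w‖ = 0 := by
    apply circleAverage_const_on_circle
    intro z hz'
    rw [abs_of_pos hρ0] at hz'
    exact hz z (sphere_sub_An hρ hz')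
  rw [e2] at e1
  have h3 : Real.log r < 0 := Real.log_neg h0 h1
  have h4 : Real.log r < Real.log ‖w‖ := Real.log_lt_log h0 hρ.1
  have h5 : Real.log ‖w‖ / Real.log r < 1 := by
    rw [div_lt_one_of_neg h3]
    exact h4
  linarith

/-- minus the angular derivative -/
noncomputable def ang (F : ℂ → ℝ) (w : ℂ) : ℝ := -(fderiv ℝ F w (Complex.I * w))

theorem ang_eq (F : ℂ → ℝ) (w : ℂ) : ang F w = (w * hd F w).im := by
  rw [ang, fderiv_eq_hd]
  simp [Complex.mul_re, Complex.mul_im]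
  ring

theorem harmonicAt_ang {F : ℂ → ℝ} {w : ℂ} (h : HarmonicAt F w) : HarmonicAt (ang F) w := by
  have h1 : AnalyticAt ℂ (fun z => z * hd F z) w := by
    apply AnalyticAt.mul analyticAt_id
    exact HarmonicAt.analyticAt_complex_partial h
  have h2 := h1.harmonicAt_im
  convert h2 using 1
  ext z
  exact ang_eq F z

/-- A function constant on the circle through `p` has zero angular derivative at `p`. -/
theorem ang_zero_of_circle {F : ℂ → ℝ} {p : ℂ} (hF : DifferentiableAt ℝ F p) {c : ℝ}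
    (hc : ∀ w : ℂ, ‖w‖ = ‖p‖ → F w = c) : ang F p = 0 := by
  have d1 : HasDerivAt (fun θ : ℝ => p * Complex.exp (θ * Complex.I)) (p * Complex.I) 0 := by
    have h2 : HasDerivAt (fun θ : ℝ => Complex.exp (θ * Complex.I)) Complex.I 0 := by
      have h3 : HasDerivAt (fun θ : ℝ => (θ : ℂ) * Complex.I) Complex.I 0 := by
        simpa using ((hasDerivAt_id (0 : ℝ)).ofReal_comp.mul_const Complex.I)
      simpa using h3.cexp
    exact h2.const_mul p
  have d2 : HasFDerivAt F (fderiv ℝ F p) (p * Complex.exp ((0 : ℝ) * Complex.I)) := by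
    simpa using hF.hasFDerivAt
  have d3 := d2.comp_hasDerivAt (0 : ℝ) d1
  have d4 : (F ∘ fun θ : ℝ => p * Complex.exp (θ * Complex.I)) = fun _ => c := by
    ext θ
    apply hc
    rw [norm_mul, Complex.norm_exp_ofReal_mul_I, mul_one]
  rw [d4] at d3
  have d5 := d3.unique (hasDerivAt_const _ _)
  rw [ang, mul_comm, d5, neg_zero]

/-- A function symmetric about the real axis has zero vertical derivative on it. -/
theorem fderiv_I_zero {F : ℂ → ℝ} (hs : ∀ w, F ((starRingEnd ℂ) w) = F w) {x : ℝ}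
    (hF : DifferentiableAt ℝ F x) : fderiv ℝ F x Complex.I = 0 := by
  have d1 : HasDerivAt (fun t : ℝ => (x : ℂ) + t * Complex.I) Complex.I 0 := by
    have := ((hasDerivAt_id (0 : ℝ)).ofReal_comp.mul_const Complex.I).const_add (x : ℂ)
    simpa using this
  have d1' : HasDerivAt (fun t : ℝ => (x : ℂ) - t * Complex.I) (-Complex.I) 0 := by
    have := ((hasDerivAt_id (0 : ℝ)).ofReal_comp.mul_const Complex.I).const_sub (x : ℂ)
    simpa using this
  have d2 : HasFDerivAt F (fderiv ℝ F x) ((x : ℂ) + (0 : ℝ) * Complex.I) := by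
    simpa using hF.hasFDerivAt
  have d2' : HasFDerivAt F (fderiv ℝ F x) ((x : ℂ) - (0 : ℝ) * Complex.I) := by
    simpa using hF.hasFDerivAt
  have d3 := d2.comp_hasDerivAt (0 : ℝ) d1
  have d3' := d2'.comp_hasDerivAt (0 : ℝ) d1'
  have e : (F ∘ fun t : ℝ => (x : ℂ) + t * Complex.I) = F ∘ fun t : ℝ => (x : ℂ) - t * Complex.I := by
    ext t
    simp only [Function.comp]
    rw [← hs ((x : ℂ) + t * Complex.I)]
    congr 1
    simp [sub_eq_add_neg]
  rw [e] at d3
  have d5 := d3.unique d3'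
  rw [map_neg] at d5
  linarith

theorem RR_symm (r : ℝ) (w : ℂ) : RR r ((starRingEnd ℂ) w) = RR r w := by
  have h : ((starRingEnd ℂ) w)⁻¹ = (starRingEnd ℂ) w⁻¹ := by simp
  rw [RR, RR, h, lam_conj, lam_conj, ← map_sub, Complex.conj_re, Complex.norm_conj]

theorem pk_symm (w : ℂ) : pk 1 ((starRingEnd ℂ) w) = pk 1 w := by
  have : (1 + (starRingEnd ℂ) w) / (1 - (starRingEnd ℂ) w) = (starRingEnd ℂ) ((1 + w) / (1 - w)) := by
    simp
  rw [pk, pk, this, Complex.conj_re]

theorem KK_symm (r : ℝ) (w : ℂ) : KK r ((starRingEnd ℂ) w) = KK r w := by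
  rw [KK, KK, RR_symm, pk_symm]

theorem re_deriv {f : ℂ → ℂ} {f' w : ℂ} (h : HasDerivAt f f' w) (v : ℂ) :
    DifferentiableAt ℝ (fun z => (f z).re) w ∧ fderiv ℝ (fun z => (f z).re) w v = (f' * v).re := by
  have h1 := h.hasFDerivAt.restrictScalars ℝ
  have h2 := (Complex.reCLM.hasFDerivAt (x := f w)).comp w h1
  have h3 : HasFDerivAt (fun z => (f z).re) (Complex.reCLM.comp
    ((ContinuousLinearMap.toSpanSingleton ℂ f').restrictScalars ℝ)) w := h2
  refine ⟨h3.differentiableAt, ?_⟩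
  rw [h3.fderiv]
  simp [mul_comm]

theorem hasFDerivAt_pk {w : ℂ} (hw : w ≠ 1) (v : ℂ) :
    DifferentiableAt ℝ (pk 1) w ∧ fderiv ℝ (pk 1) w v = (2 / (1 - w) ^ 2 * v).re := by
  have hne : (1 : ℂ) - w ≠ 0 := by
    intro h
    exact hw (by linear_combination -h)
  have h1 : HasDerivAt (fun z : ℂ => (1 + z) / (1 - z)) (2 / (1 - w) ^ 2) w := by
    have h2 : HasDerivAt (fun z : ℂ => 1 + z) 1 w := by simpa using (hasDerivAt_id w).const_add 1
    have h3 : HasDerivAt (fun z : ℂ => 1 - z) (-1) w := by simpa using (hasDerivAt_id w).const_sub 1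
    have h4 := h2.div h3 hne
    have e : (1 * (1 - w) - (1 + w) * -1) / (1 - w) ^ 2 = 2 / (1 - w) ^ 2 := by ring
    rw [e] at h4
    exact h4
  exact re_deriv h1 v

theorem ang_pk_nonneg {w : ℂ} (hw : ‖w‖ < 1) (him : 0 ≤ w.im) : 0 ≤ ang (pk 1) w := by
  have hne1 : w ≠ 1 := by
    rintro rfl
    simp at hw
  have hne : (1 : ℂ) - w ≠ 0 := by
    intro h
    exact hne1 (by linear_combination -h)
  rw [ang, (hasFDerivAt_pk hne1 _).2]
  have e : 2 / (1 - w) ^ 2 * (Complex.I * w) =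
      Complex.I * (2 * w * ((starRingEnd ℂ) (1 - w)) ^ 2) / ((‖1 - w‖ ^ 2 : ℝ) : ℂ) ^ 2 := by
    have h1 : ((‖1 - w‖ ^ 2 : ℝ) : ℂ) = (1 - w) * (starRingEnd ℂ) (1 - w) := by
      rw [Complex.mul_conj, Complex.normSq_eq_norm_sq]
    have h2 : (starRingEnd ℂ) (1 - w) ≠ 0 := by
      rw [Ne, map_eq_zero]
      exact hne
    rw [h1]
    field_simp
  rw [e]
  have h3 : (Complex.I * (2 * w * ((starRingEnd ℂ) (1 - w)) ^ 2) / ((‖1 - w‖ ^ 2 : ℝ) : ℂ) ^ 2).re =
      -(2 * w.im * (1 - ‖w‖ ^ 2)) / (‖1 - w‖ ^ 2) ^ 2 := by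
    rw [← Complex.ofReal_pow, Complex.div_ofReal_re]
    congr 1
    rw [← Complex.normSq_eq_norm_sq, Complex.normSq_apply]
    simp [pow_two, Complex.mul_re, Complex.mul_im]
    ring
  rw [h3]
  have h4 : 0 ≤ 1 - ‖w‖ ^ 2 := by
    have := norm_nonneg w
    nlinarith
  rw [neg_div, neg_neg]
  positivity

theorem ang_add {F G : ℂ → ℝ} {w : ℂ} (hF : DifferentiableAt ℝ F w) (hG : DifferentiableAt ℝ G w) :
    ang (fun z => F z + G z) w = ang F w + ang G w := by
  rw [ang, ang, ang]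
  have : fderiv ℝ (fun z => F z + G z) w = fderiv ℝ F w + fderiv ℝ G w := fderiv_fun_add hF hG
  rw [this]
  simp
  ring

/-- The kernel decreases as one moves away from the pole along circles. -/
theorem ang_KK_nonneg {r : ℝ} (h0 : 0 < r) (h1 : r < 1) :
    ∀ w ∈ An r ∩ {w | 0 < w.im}, 0 ≤ ang (KK r) w := by
  have hU : IsOpen (An r ∩ {w : ℂ | 0 < w.im}) :=
    (isOpen_An r).inter (isOpen_lt continuous_const Complex.continuous_im)
  apply weak_min_bd hU ((isBounded_An r).subset inter_subset_left)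
    (fun w hw => harmonicAt_ang (harmonicAt_KK h0 h1 hw.1))
  intro p hp hpU δ hδ
  have hcl : closure (An r ∩ {w : ℂ | 0 < w.im}) ⊆ {w | (r ≤ ‖w‖ ∧ ‖w‖ ≤ 1) ∧ 0 ≤ w.im} := by
    apply closure_minimal
    · rintro z ⟨hz1, hz2⟩
      exact ⟨⟨hz1.1.le, hz1.2.le⟩, le_of_lt hz2⟩
    · exact ((isClosed_le continuous_const continuous_norm).inter
        (isClosed_le continuous_norm continuous_const)).inter
        (isClosed_le continuous_const Complex.continuous_im)
  obtain ⟨⟨hp1, hp2⟩, hp3⟩ := hcl hp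
  have hp0 : p ≠ 0 := by
    rintro rfl
    simp at hp1
    linarith
  have hRharm : HarmonicAt (RR r) p :=
    harmonicAt_RR h0 h1 (dom_of h0 h1 hp2) (dom_inv h0 h1 hp1) hp0
  rcases hp2.eq_or_lt with h | h
  · -- outer circle
    have hRz : ang (RR r) p = 0 :=
      ang_zero_of_circle (hRharm.1.differentiableAt two_ne_zero) (c := 0) (fun w hw =>
        RR_outer h0 h1 (by rw [hw, h]))
    have hRc : ContinuousAt (ang (RR r)) p := (harmonicAt_ang hRharm).1.continuousAt
    have h4 : ∀ᶠ z in 𝓝 p, -δ < ang (RR r) z := by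
      apply hRc.eventually (lt_mem_nhds _)
      rw [hRz]
      linarith
    filter_upwards [h4] with z hz hzU
    have hz0 : z ≠ 0 := An_ne_zero h0.le hzU.1
    have a1 : DifferentiableAt ℝ (pk 1) z :=
      (pk_harmonic (ω := 1) (by simp) hzU.1.2).1.differentiableAt two_ne_zero
    have a2 : DifferentiableAt ℝ (RR r) z :=
      (harmonicAt_RR h0 h1 (dom_of h0 h1 hzU.1.2.le) (dom_inv h0 h1 hzU.1.1.le)
        hz0).1.differentiableAt two_ne_zero
    have a3 := ang_pk_nonneg hzU.1.2 (le_of_lt hzU.2)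
    have a4 : ang (KK r) z = ang (pk 1) z + ang (RR r) z := ang_add a1 a2
    rw [a4]
    linarith
  · have hKharm : HarmonicAt (KK r) p := (pk_harmonic (ω := 1) (by simp) h).add hRharm
    have hKc : ContinuousAt (ang (KK r)) p := (harmonicAt_ang hKharm).1.continuousAt
    have hK0 : ang (KK r) p = 0 := by
      rcases hp1.eq_or_lt with h' | h'
      · exact ang_zero_of_circle (hKharm.1.differentiableAt two_ne_zero) (c := 0) (fun w hw =>
          KK_inner h0 h1 (by rw [hw, h']))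
      · -- real point
        have him : p.im = 0 := by
          rcases hp3.eq_or_lt with h'' | h''
          · exact h''.symm
          · exact absurd ⟨⟨h', h⟩, h''⟩ hpU
        have hpr : p = (p.re : ℂ) := by
          apply Complex.ext <;> simp [him]
        have hd : DifferentiableAt ℝ (KK r) ((p.re : ℝ) : ℂ) := by
          rw [← hpr]
          exact hKharm.1.differentiableAt two_ne_zero
        have := fderiv_I_zero (KK_symm r) hd
        rw [ang, hpr]
        have e : Complex.I * ((p.re : ℝ) : ℂ) = p.re • Complex.I := by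
          simp [mul_comm]
        rw [e, map_smul, this]
        simp
    have h4 : ∀ᶠ z in 𝓝 p, -δ < ang (KK r) z := by
      apply hKc.eventually (lt_mem_nhds _)
      rw [hK0]
      linarith
    filter_upwards [h4] with z hz _
    exact hz

end Pool.Agent.Lib.MP_e6ddea_an.Ann
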