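import Mathlib
import Pool.Agent.Lib.MP_e6ddea_an.Ann.Concave

set_option autoImplicit false

open InnerProductSpace Metric Set Filter Topology Real

namespace Pool.Agent.Lib.MP_e6ddea_an.Ann

/-- The function `w * hd F w`. -/
noncomputable def gg (F : ℂ → ℝ) (w : ℂ) : ℂ := w * hd F w

theorem analyticAt_gg {F : ℂ → ℝ} {w : ℂ} (h : HarmonicAt F w) : AnalyticAt ℂ (gg F) w := by
  apply AnalyticAt.mul analyticAt_id
  exact HarmonicAt.analyticAt_complex_partial h

theorem nonneg_of_right {f : ℝ → ℝ} {d : ℝ} (hf : HasDerivAt f d 0) (h0 : f 0 = 0)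
    (hpos : ∀ᶠ y in 𝓝[>] (0 : ℝ), 0 ≤ f y) : 0 ≤ d := by
  have hle : 𝓝[>] (0 : ℝ) ≤ 𝓝[≠] 0 :=
    nhdsWithin_mono _ (fun y (hy : y ∈ Ioi (0 : ℝ)) => ne_of_gt hy)
  have h1 := (hasDerivAt_iff_tendsto_slope.1 hf).mono_left hle
  apply ge_of_tendsto h1
  filter_upwards [hpos, self_mem_nhdsWithin] with y hy hy0
  rw [slope_def_field, h0]
  have : (0 : ℝ) < y := hy0
  apply div_nonneg <;> linarith

theorem deriv_gg_nonneg {r : ℝ} (h0 : 0 < r) (h1 : r < 1) {x : ℝ} (hx : (x : ℂ) ∈ An r) :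
    0 ≤ (deriv (gg (KK r)) x).re := by
  have hA := analyticAt_gg (harmonicAt_KK h0 h1 hx)
  have d1 : HasDerivAt (fun t : ℝ => (x : ℂ) + t * Complex.I) Complex.I 0 := by
    have := ((hasDerivAt_id (0 : ℝ)).ofReal_comp.mul_const Complex.I).const_add (x : ℂ)
    simpa using this
  have d2 : HasDerivAt (gg (KK r)) (deriv (gg (KK r)) x) ((x : ℂ) + (0 : ℝ) * Complex.I) := by
    simpa using hA.differentiableAt.hasDerivAt
  have d3 : HasDerivAt (fun t : ℝ => gg (KK r) ((x : ℂ) + t * Complex.I))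
      (deriv (gg (KK r)) x * Complex.I) 0 := by
    exact d2.comp 0 d1
  have d4 : HasDerivAt (fun t : ℝ => (gg (KK r) ((x : ℂ) + t * Complex.I)).im)
      ((deriv (gg (KK r)) x * Complex.I).im) 0 := by
    exact (Complex.imCLM.hasFDerivAt
      (x := gg (KK r) ((x : ℂ) + ((0 : ℝ) : ℂ) * Complex.I))).comp_hasDerivAt 0 d3
  have e : (deriv (gg (KK r)) x * Complex.I).im = (deriv (gg (KK r)) x).re := by simp
  rw [e] at d4
  have hang : ∀ w, (gg (KK r) w).im = ang (KK r) w := fun w => (ang_eq _ _).symm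
  apply nonneg_of_right d4
  · rw [hang]
    simp only [Complex.ofReal_zero, zero_mul, add_zero]
    have := fderiv_I_zero (KK_symm r) ((harmonicAt_KK h0 h1 hx).1.differentiableAt two_ne_zero)
    rw [ang]
    have e2 : Complex.I * ((x : ℝ) : ℂ) = x • Complex.I := by simp [mul_comm]
    rw [e2, map_smul, this]
    simp
  · have h5 : Tendsto (fun t : ℝ => (x : ℂ) + t * Complex.I) (𝓝[>] 0) (𝓝 x) := by
      have : Continuous (fun t : ℝ => (x : ℂ) + t * Complex.I) := by fun_prop
      have h6 := this.tendsto 0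
      simp only [Complex.ofReal_zero, zero_mul, add_zero] at h6
      exact h6.mono_left nhdsWithin_le_nhds
    filter_upwards [h5.eventually ((isOpen_An r).mem_nhds hx), self_mem_nhdsWithin] with y hy hy0
    rw [hang]
    apply ang_KK_nonneg h0 h1
    refine ⟨hy, ?_⟩
    show 0 < ((x : ℂ) + y * Complex.I).im
    have : (0 : ℝ) < y := hy0
    simpa using this

/-- The point `-r e^s`. -/
noncomputable def pt (r s : ℝ) : ℂ := ((-(r * Real.exp s) : ℝ) : ℂ)

theorem hasDerivAt_pt (r s : ℝ) : HasDerivAt (pt r) (pt r s) s := by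
  have h1 : HasDerivAt (fun s : ℝ => -(r * Real.exp s)) (-(r * Real.exp s)) s :=
    ((Real.hasDerivAt_exp s).const_mul r).neg
  exact h1.ofReal_comp

theorem norm_pt {r : ℝ} (h0 : 0 < r) (s : ℝ) : ‖pt r s‖ = r * Real.exp s := by
  rw [pt, Complex.norm_real, Real.norm_eq_abs, abs_neg, abs_of_pos (by positivity)]

theorem pt_mem {r : ℝ} (h0 : 0 < r) {s : ℝ} (hs : s ∈ Ioo 0 (-Real.log r)) : pt r s ∈ An r := by
  refine ⟨?_, ?_⟩
  · rw [norm_pt h0]
    have := Real.one_lt_exp_iff.2 hs.1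
    nlinarith
  · rw [norm_pt h0]
    have h2 : Real.exp s < r⁻¹ := by
      calc Real.exp s < Real.exp (-Real.log r) := Real.exp_lt_exp.2 hs.2
        _ = r⁻¹ := by rw [Real.exp_neg, Real.exp_log h0]
    calc r * Real.exp s < r * r⁻¹ := mul_lt_mul_of_pos_left h2 h0
      _ = 1 := mul_inv_cancel₀ h0.ne'

/-- The slope inequalities for the kernel on the ray opposite to the pole. -/
theorem slope_ineq {r : ℝ} (h0 : 0 < r) (h1 : r < 1) {s : ℝ} (hs : s ∈ Ioo 0 (-Real.log r)) :
    s * fderiv ℝ (KK r) (pt r s) (pt r s) ≤ KK r (pt r s) ∧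
    -(KK r (pt r s)) ≤ (-Real.log r - s) * fderiv ℝ (KK r) (pt r s) (pt r s) := by
  set L : ℝ := -Real.log r with hL
  let F : ℝ → ℝ := fun s => KK r (pt r s)
  let F' : ℝ → ℝ := fun s => (gg (KK r) (pt r s)).re
  have hF' : ∀ s, F' s = fderiv ℝ (KK r) (pt r s) (pt r s) := by
    intro s
    simp only [F', gg]
    rw [fderiv_eq_hd, mul_comm]
  have hdF : ∀ s ∈ Ioo 0 L, HasDerivAt F (F' s) s := by
    intro s hs
    have hh := (harmonicAt_KK h0 h1 (pt_mem h0 hs)).1.differentiableAt two_ne_zero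
    rw [hF']
    exact hh.hasFDerivAt.comp_hasDerivAt s (hasDerivAt_pt r s)
  have hdF' : ∀ s ∈ Ioo 0 L, HasDerivAt F' ((deriv (gg (KK r)) (pt r s) * pt r s).re) s := by
    intro s hs
    have hA := (analyticAt_gg (harmonicAt_KK h0 h1 (pt_mem h0 hs))).differentiableAt.hasDerivAt
    have d1 : HasDerivAt (fun s => gg (KK r) (pt r s)) (deriv (gg (KK r)) (pt r s) * pt r s) s :=
      hA.comp s (hasDerivAt_pt r s)
    exact (Complex.reCLM.hasFDerivAt (x := gg (KK r) (pt r s))).comp_hasDerivAt s d1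
  have hanti : AntitoneOn F' (Ioo 0 L) := by
    apply antitoneOn_of_deriv_nonpos (convex_Ioo 0 L)
    · exact fun s hs => (hdF' s hs).continuousAt.continuousWithinAt
    · intro s hs
      rw [interior_Ioo] at hs
      exact (hdF' s hs).differentiableAt.differentiableWithinAt
    · intro s hs
      rw [interior_Ioo] at hs
      rw [(hdF' s hs).deriv]
      have h2 := deriv_gg_nonneg h0 h1 (x := -(r * Real.exp s)) (pt_mem h0 hs)
      have h3 : (deriv (gg (KK r)) (pt r s) * pt r s).re =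
          -(r * Real.exp s) * (deriv (gg (KK r)) (pt r s)).re := by
        rw [pt, Complex.re_mul_ofReal]
        ring
      rw [h3]
      have h4 : 0 < r * Real.exp s := by positivity
      have h5 : 0 ≤ (deriv (gg (KK r)) (pt r s)).re := h2
      nlinarith
  have hcF : ContinuousOn F (Icc 0 L) := by
    intro s hs
    have hn := norm_pt h0 s
    have hn1 : r ≤ ‖pt r s‖ := by
      rw [hn]
      have := Real.one_le_exp_iff.2 hs.1
      nlinarith
    have hn2 : ‖pt r s‖ ≤ 1 := by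
      rw [hn]
      have h2 : Real.exp s ≤ r⁻¹ := by
        calc Real.exp s ≤ Real.exp (-Real.log r) := Real.exp_le_exp.2 hs.2
          _ = r⁻¹ := by rw [Real.exp_neg, Real.exp_log h0]
      calc r * Real.exp s ≤ r * r⁻¹ := mul_le_mul_of_nonneg_left h2 h0.le
        _ = 1 := mul_inv_cancel₀ h0.ne'
    have hp0 : pt r s ≠ 0 := by
      intro h
      rw [h, norm_zero] at hn1
      linarith
    have hp1 : pt r s ≠ 1 := by
      intro h
      have := congrArg Complex.re h
      rw [pt, Complex.ofReal_re, Complex.one_re] at this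
      have h4 : 0 < r * Real.exp s := by positivity
      linarith
    have c1 : ContinuousAt (KK r) (pt r s) :=
      (hasFDerivAt_pk hp1 0).1.continuousAt.add
        (harmonicAt_RR h0 h1 (dom_of h0 h1 hn2) (dom_inv h0 h1 hn1) hp0).1.continuousAt
    exact (c1.comp (hasDerivAt_pt r s).continuousAt).continuousWithinAt
  have hF0 : F 0 = 0 := by
    apply KK_inner h0 h1
    rw [norm_pt h0]
    simp
  have hFL : F L = 0 := by
    have e : pt r L = -1 := by
      rw [pt, hL, Real.exp_neg, Real.exp_log h0, mul_inv_cancel₀ h0.ne']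
      simp
    have e2 : pk 1 (-1) = 0 := by simp [pk]
    simp only [F, KK]
    rw [e, e2, RR_outer h0 h1 (by simp)]
    simp
  constructor
  · obtain ⟨c, hc, hc2⟩ := exists_hasDerivAt_eq_slope F F' hs.1
      (hcF.mono (Icc_subset_Icc_right hs.2.le))
      (fun x hx => hdF x ⟨hx.1, hx.2.trans hs.2⟩)
    rw [hF0, sub_zero, sub_zero, eq_div_iff hs.1.ne'] at hc2
    have h2 : F' s ≤ F' c := hanti ⟨hc.1, hc.2.trans hs.2⟩ hs hc.2.le
    rw [← hF']
    have := hs.1
    show s * F' s ≤ F s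
    nlinarith
  · obtain ⟨c, hc, hc2⟩ := exists_hasDerivAt_eq_slope F F' hs.2
      (hcF.mono (Icc_subset_Icc_left hs.1.le))
      (fun x hx => hdF x ⟨hs.1.trans hx.1, hx.2⟩)
    rw [hFL, zero_sub, eq_div_iff (by linarith [hs.2])] at hc2
    have h2 : F' c ≤ F' s := hanti hs ⟨hs.1.trans hc.1, hc.2⟩ hc.1.le
    rw [← hF']
    have := hs.2
    show -(F s) ≤ (L - s) * F' s
    nlinarith

end Pool.Agent.Lib.MP_e6ddea_an.Ann
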