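import Mathlib
import Pool.Agent.Lib.MP_e6ddea_an.Ann.Slope

set_option autoImplicit false

open InnerProductSpace Metric Set Filter Topology Real

namespace Pool.Agent.Lib.MP_e6ddea_an.Ann

/-- First order separation. -/
theorem sep {ι : Type} [Fintype ι] {k : ℂ → ℝ} {h : ι → ℂ → ℝ} {z₀ : ℂ}
    (hk : DifferentiableAt ℝ k z₀) (hh : ∀ i, DifferentiableAt ℝ (h i) z₀)
    (heq : ∀ i, h i z₀ = k z₀)
    (hpos : ∀ v : ℂ, v ≠ 0 → ∃ i, 0 < fderiv ℝ (h i) z₀ v - fderiv ℝ k z₀ v) :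
    ∀ᶠ z in 𝓝[≠] z₀, ∃ i, k z < h i z := by
  let l : ι → (ℂ →L[ℝ] ℝ) := fun i => fderiv ℝ (h i) z₀ - fderiv ℝ k z₀
  let M : ℂ → ℝ := fun v => ∑ i, max (l i v) 0
  have hMc : Continuous M := by
    apply continuous_finsetSum
    intro i _
    exact (l i).continuous.max continuous_const
  have hMpos : ∀ v, v ≠ 0 → 0 < M v := by
    intro v hv
    obtain ⟨i, hi⟩ := hpos v hv
    apply Finset.sum_pos' (fun j _ => le_max_right _ _)
    exact ⟨i, Finset.mem_univ i, lt_max_of_lt_left hi⟩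
  obtain ⟨v₀, hv₀, hmin⟩ := (isCompact_sphere (0 : ℂ) 1).exists_isMinOn
    ⟨1, by simp⟩ hMc.continuousOn
  have hv₀ne : v₀ ≠ 0 := by
    rintro rfl
    simp at hv₀
  set c : ℝ := M v₀ with hc
  have hcpos : 0 < c := hMpos v₀ hv₀ne
  have hhom : ∀ (t : ℝ) (v : ℂ), 0 ≤ t → M (t • v) = t * M v := by
    intro t v ht
    simp only [M, Finset.mul_sum]
    apply Finset.sum_congr rfl
    intro i _
    rw [map_smul, smul_eq_mul, mul_max_of_nonneg _ _ ht, mul_zero]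
  have hlow : ∀ v : ℂ, c * ‖v‖ ≤ M v := by
    intro v
    by_cases hv : v = 0
    · subst hv
      have : M 0 = 0 := by simp [M]
      rw [this, norm_zero, mul_zero]
    · have hn : 0 < ‖v‖ := norm_pos_iff.2 hv
      have h1 : v = ‖v‖ • ((‖v‖⁻¹ : ℝ) • v) := by
        rw [smul_smul, mul_inv_cancel₀ hn.ne', one_smul]
      have h2 : ((‖v‖⁻¹ : ℝ) • v) ∈ sphere (0 : ℂ) 1 := by
        rw [mem_sphere, dist_zero_right, norm_smul, Real.norm_eq_abs,
          abs_of_pos (inv_pos.2 hn), inv_mul_cancel₀ hn.ne']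
      have h3 : c ≤ M ((‖v‖⁻¹ : ℝ) • v) := hmin h2
      have h4 : M v = ‖v‖ * M ((‖v‖⁻¹ : ℝ) • v) := by
        conv_lhs => rw [h1]
        exact hhom _ _ hn.le
      rw [h4]
      nlinarith
  set n : ℝ := (Fintype.card ι : ℝ) with hn
  have hn0 : 0 ≤ n := by positivity
  have hε : 0 < c / (2 * (n + 1)) := by positivity
  have hlo : ∀ i, ∀ᶠ z in 𝓝 z₀,
      ‖(h i z - k z) - (h i z₀ - k z₀) - l i (z - z₀)‖ ≤ c / (2 * (n + 1)) * ‖z - z₀‖ := by
    intro i
    have h1 : HasFDerivAt (fun z => h i z - k z) (l i) z₀ :=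
      (hh i).hasFDerivAt.sub hk.hasFDerivAt
    exact h1.isLittleO.def hε
  have hall : ∀ᶠ z in 𝓝 z₀, ∀ i,
      ‖(h i z - k z) - (h i z₀ - k z₀) - l i (z - z₀)‖ ≤ c / (2 * (n + 1)) * ‖z - z₀‖ :=
    Filter.eventually_all.2 hlo
  filter_upwards [hall.filter_mono nhdsWithin_le_nhds, self_mem_nhdsWithin] with z hz hzne
  by_contra hcon
  push Not at hcon
  have hv : 0 < ‖z - z₀‖ := norm_pos_iff.2 (sub_ne_zero.2 hzne)
  have h1 : ∀ i, max (l i (z - z₀)) 0 ≤ c / (2 * (n + 1)) * ‖z - z₀‖ := by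
    intro i
    apply max_le
    · have h2 := hz i
      rw [heq i, sub_self, sub_zero, Real.norm_eq_abs] at h2
      have h3 := (abs_le.1 h2).1
      have h4 := hcon i
      linarith
    · positivity
  have h2 : M (z - z₀) ≤ n * (c / (2 * (n + 1)) * ‖z - z₀‖) := by
    calc M (z - z₀) ≤ ∑ _i : ι, c / (2 * (n + 1)) * ‖z - z₀‖ := Finset.sum_le_sum (fun i _ => h1 i)
      _ = n * (c / (2 * (n + 1)) * ‖z - z₀‖) := by
        rw [Finset.sum_const, Finset.card_univ, nsmul_eq_mul]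
  have h3 := hlow (z - z₀)
  have h4 : n * (c / (2 * (n + 1)) * ‖z - z₀‖) < c * ‖z - z₀‖ := by
    have h5 : n * (c / (2 * (n + 1))) < c := by
      rw [mul_div_assoc', div_lt_iff₀ (by positivity)]
      nlinarith
    nlinarith
  linarith

theorem sinh_lt {s : ℝ} (hs : 0 < s) : Real.sinh s < s * Real.cosh s := by
  obtain ⟨c, hc, hc2⟩ := exists_hasDerivAt_eq_slope Real.sinh Real.cosh hs
    Real.continuous_sinh.continuousOn (fun x _ => Real.hasDerivAt_sinh x)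
  rw [Real.sinh_zero, sub_zero, sub_zero, eq_div_iff hs.ne'] at hc2
  have h1 : Real.cosh c < Real.cosh s := by
    rw [Real.cosh_lt_cosh, abs_of_pos hc.1, abs_of_pos hs]
    exact hc.2
  nlinarith

/-- Test functions. -/
noncomputable def hout (r : ℝ) (w : ℂ) : ℝ :=
  Real.log ‖w‖ - Real.log r - (1 / 2) * (w - (r : ℂ) ^ 2 * w⁻¹).re

noncomputable def hin (r : ℝ) (w : ℂ) : ℝ := -Real.log ‖w‖ - (r / 2) * (w⁻¹ - w).re

theorem inv_re' {w : ℂ} (hw : w ≠ 0) : (w⁻¹).re = w.re / ‖w‖ ^ 2 := by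
  rw [Complex.inv_re, Complex.normSq_eq_norm_sq]

theorem harmonicAt_hout {r : ℝ} {w : ℂ} (hw : w ≠ 0) : HarmonicAt (hout r) w := by
  have a1 : HarmonicAt (fun z : ℂ => Real.log ‖z‖) w :=
    (analyticAt_id (𝕜 := ℂ) (z := w)).harmonicAt_log_norm hw
  have a2 : AnalyticAt ℂ (fun z : ℂ => z - (r : ℂ) ^ 2 * z⁻¹) w := by
    have := analyticAt_inv (𝕜 := ℂ) hw
    exact analyticAt_id.sub (analyticAt_const.mul this)
  have a4 := (a1.sub (harmonicAt_const (x := w) (Real.log r))).sub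
    (a2.harmonicAt_re.const_smul (c := (1 / 2 : ℝ)))
  exact a4

theorem harmonicAt_hin {r : ℝ} {w : ℂ} (hw : w ≠ 0) : HarmonicAt (hin r) w := by
  have a1 : HarmonicAt (fun z : ℂ => Real.log ‖z‖) w :=
    (analyticAt_id (𝕜 := ℂ) (z := w)).harmonicAt_log_norm hw
  have a2 : AnalyticAt ℂ (fun z : ℂ => z⁻¹ - z) w := by
    have := analyticAt_inv (𝕜 := ℂ) hw
    exact this.sub analyticAt_id
  have a4 := a1.neg.sub (a2.harmonicAt_re.const_smul (c := (r / 2 : ℝ)))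
  exact a4

theorem hout_pos {r : ℝ} (h0 : 0 < r) {w : ℂ} (hw : w ∈ An r) : 0 < hout r w := by
  have hw0 := An_ne_zero h0.le hw
  have hn : 0 < ‖w‖ := norm_pos_iff.2 hw0
  have h1 : 1 - r / ‖w‖ ≤ Real.log ‖w‖ - Real.log r := by
    have := Real.one_sub_inv_le_log_of_pos (div_pos hn h0)
    rwa [inv_div, Real.log_div hn.ne' h0.ne'] at this
  have h2 : (w - (r : ℂ) ^ 2 * w⁻¹).re = w.re * (1 - r ^ 2 / ‖w‖ ^ 2) := by
    have : ((r : ℂ) ^ 2 * w⁻¹).re = r ^ 2 * (w⁻¹).re := by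
      rw [← Complex.ofReal_pow, Complex.re_ofReal_mul]
    rw [Complex.sub_re, this, inv_re' hw0]
    ring
  have h3 : w.re ≤ ‖w‖ := Complex.re_le_norm w
  have h4 : 0 ≤ 1 - r ^ 2 / ‖w‖ ^ 2 := by
    rw [sub_nonneg, div_le_one (by positivity)]
    have := hw.1
    nlinarith
  have h5 : w.re * (1 - r ^ 2 / ‖w‖ ^ 2) ≤ ‖w‖ * (1 - r ^ 2 / ‖w‖ ^ 2) :=
    mul_le_mul_of_nonneg_right h3 h4
  have h6 : 0 < (1 - r / ‖w‖) - 1 / 2 * (‖w‖ * (1 - r ^ 2 / ‖w‖ ^ 2)) := by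
    have e : (1 - r / ‖w‖) - 1 / 2 * (‖w‖ * (1 - r ^ 2 / ‖w‖ ^ 2)) =
        (‖w‖ - r) / ‖w‖ * (1 - (‖w‖ + r) / 2) := by
      field_simp
      ring
    rw [e]
    have h7 := hw.1
    have h8 := hw.2
    apply mul_pos
    · apply div_pos <;> linarith
    · linarith
  rw [hout, h2]
  linarith

theorem hin_pos {r : ℝ} (h0 : 0 < r) {w : ℂ} (hw : w ∈ An r) : 0 < hin r w := by
  have hw0 := An_ne_zero h0.le hw
  have hn : 0 < ‖w‖ := norm_pos_iff.2 hw0
  have h1 : 1 - ‖w‖ ≤ -Real.log ‖w‖ := by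
    have := Real.log_le_sub_one_of_pos hn
    linarith
  have h2 : (w⁻¹ - w).re = w.re * (1 / ‖w‖ ^ 2 - 1) := by
    rw [Complex.sub_re, inv_re' hw0]
    ring
  have h3 : w.re ≤ ‖w‖ := Complex.re_le_norm w
  have h4 : 0 ≤ 1 / ‖w‖ ^ 2 - 1 := by
    rw [sub_nonneg, le_div_iff₀ (by positivity)]
    have := hw.2
    nlinarith
  have h5 : w.re * (1 / ‖w‖ ^ 2 - 1) ≤ ‖w‖ * (1 / ‖w‖ ^ 2 - 1) :=
    mul_le_mul_of_nonneg_right h3 h4
  have h6 : 0 < (1 - ‖w‖) - r / 2 * (‖w‖ * (1 / ‖w‖ ^ 2 - 1)) := by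
    have e : (1 - ‖w‖) - r / 2 * (‖w‖ * (1 / ‖w‖ ^ 2 - 1)) =
        (1 - ‖w‖) * (2 * ‖w‖ - r * (1 + ‖w‖)) / (2 * ‖w‖) := by
      field_simp
      ring
    rw [e]
    have h7 := hw.1
    have h8 := hw.2
    apply div_pos _ (by positivity)
    apply mul_pos (by linarith)
    nlinarith
  rw [hin, h2]
  have h7 : r / 2 * (w.re * (1 / ‖w‖ ^ 2 - 1)) ≤ r / 2 * (‖w‖ * (1 / ‖w‖ ^ 2 - 1)) :=
    mul_le_mul_of_nonneg_left h5 (by positivity)
  linarith

theorem hout_symm (r : ℝ) (w : ℂ) : hout r ((starRingEnd ℂ) w) = hout r w := by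
  have h : (starRingEnd ℂ) w - (r : ℂ) ^ 2 * ((starRingEnd ℂ) w)⁻¹ =
      (starRingEnd ℂ) (w - (r : ℂ) ^ 2 * w⁻¹) := by simp
  rw [hout, hout, h, Complex.conj_re, Complex.norm_conj]

theorem hin_symm (r : ℝ) (w : ℂ) : hin r ((starRingEnd ℂ) w) = hin r w := by
  have h : ((starRingEnd ℂ) w)⁻¹ - (starRingEnd ℂ) w = (starRingEnd ℂ) (w⁻¹ - w) := by simp
  rw [hin, hin, h, Complex.conj_re, Complex.norm_conj]

theorem pt_inv {r : ℝ} (h0 : 0 < r) (s : ℝ) : (pt r s)⁻¹ = ((-(r⁻¹ * Real.exp (-s)) : ℝ) : ℂ) := by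
  rw [pt, ← Complex.ofReal_inv]
  congr 1
  rw [Real.exp_neg]
  field_simp

theorem hout_pt {r : ℝ} (h0 : 0 < r) (s : ℝ) : hout r (pt r s) = s + r * Real.sinh s := by
  rw [hout, norm_pt h0, Real.log_mul h0.ne' (Real.exp_pos s).ne', Real.log_exp, pt_inv h0, pt]
  have : (((-(r * Real.exp s) : ℝ) : ℂ) - (r : ℂ) ^ 2 * ((-(r⁻¹ * Real.exp (-s)) : ℝ) : ℂ)).re =
      -(r * Real.exp s) + r * Real.exp (-s) := by
    rw [Complex.sub_re, Complex.ofReal_re, ← Complex.ofReal_pow, Complex.re_ofReal_mul,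
      Complex.ofReal_re]
    field_simp
    ring
  rw [this, Real.sinh_eq]
  ring

theorem hin_pt {r : ℝ} (h0 : 0 < r) (s : ℝ) :
    hin r (pt r s) = (-Real.log r - s) + r * Real.sinh (-Real.log r - s) := by
  rw [hin, norm_pt h0, Real.log_mul h0.ne' (Real.exp_pos s).ne', Real.log_exp, pt_inv h0, pt]
  have h1 : Real.exp (-Real.log r - s) = r⁻¹ * Real.exp (-s) := by
    rw [sub_eq_add_neg, Real.exp_add, Real.exp_neg (Real.log r), Real.exp_log h0]
  have h2 : Real.exp (-(-Real.log r - s)) = r * Real.exp s := by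
    rw [show -(-Real.log r - s) = Real.log r + s by ring, Real.exp_add, Real.exp_log h0]
  rw [Real.sinh_eq, h1, h2]
  rw [Complex.sub_re, Complex.ofReal_re, Complex.ofReal_re]
  ring

theorem fderiv_pt {F : ℂ → ℝ} {r s d : ℝ} (hF : DifferentiableAt ℝ F (pt r s))
    (hd : HasDerivAt (fun s => F (pt r s)) d s) : fderiv ℝ F (pt r s) (pt r s) = d :=
  (hF.hasFDerivAt.comp_hasDerivAt s (hasDerivAt_pt r s)).unique hd

/-- Decomposition of a direction. -/
theorem fderiv_decomp {F : ℂ → ℝ} {x : ℝ} (hx : x ≠ 0) (hI : fderiv ℝ F x Complex.I = 0) (v : ℂ) :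
    fderiv ℝ F x v = v.re / x * fderiv ℝ F x x := by
  have h4 : v = (v.re / x) • (x : ℂ) + v.im • Complex.I := by
    apply Complex.ext
    · simp [hx]
    · simp
  conv_lhs => rw [h4]
  rw [map_add, map_smul, map_smul, hI]
  simp

/-- Abstract comparison at a negative real point. -/
theorem local_compare {x : ℝ} (hx : x ≠ 0) {k a b : ℂ → ℝ}
    (hk : DifferentiableAt ℝ k x) (ha : DifferentiableAt ℝ a x) (hb : DifferentiableAt ℝ b x)
    (hkI : fderiv ℝ k x Complex.I = 0) (haI : fderiv ℝ a x Complex.I = 0)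
    (hbI : fderiv ℝ b x Complex.I = 0)
    (hk0 : 0 < k x) (ha0 : 0 < a x) (hb0 : 0 < b x)
    (h1 : fderiv ℝ k x x / k x < fderiv ℝ a x x / a x)
    (h2 : fderiv ℝ b x x / b x < fderiv ℝ k x x / k x) :
    ∀ᶠ z in 𝓝[≠] (x : ℂ), k z / k x < a z / a x ∨ k z / k x < b z / b x ∨
      k z / k x < 1 + (1 / 2) * z.im ∨ k z / k x < 1 - (1 / 2) * z.im := by
  let k' : ℂ → ℝ := fun z => (k x)⁻¹ * k z
  let h : Fin 4 → ℂ → ℝ := ![fun z => (a x)⁻¹ * a z, fun z => (b x)⁻¹ * b z,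
    fun z => 1 + (1 / 2) * z.im, fun z => 1 - (1 / 2) * z.im]
  have hdim : ∀ c : ℝ, HasFDerivAt (fun z : ℂ => 1 + c * z.im) (c • Complex.imCLM) x := by
    intro c
    have := ((Complex.imCLM.hasFDerivAt (x := (x : ℂ))).const_smul c).const_add (1 : ℝ)
    exact this
  have e3 : (fun z : ℂ => 1 - (1 / 2) * z.im) = fun z : ℂ => 1 + (-(1 / 2) : ℝ) * z.im := by
    ext z; ring
  have hfd : ∀ (F : ℂ → ℝ) (c : ℝ) (_ : DifferentiableAt ℝ F x) (v : ℂ),
      fderiv ℝ (fun z => c * F z) x v = c * fderiv ℝ F x v := by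
    intro F c hF v
    rw [fderiv_const_mul hF]
    simp
  have key := sep (k := k') (h := h) (z₀ := (x : ℂ)) (hk.const_mul _) (by
    intro i
    fin_cases i
    · exact ha.const_mul _
    · exact hb.const_mul _
    · exact (hdim (1 / 2)).differentiableAt
    · show DifferentiableAt ℝ (fun z : ℂ => 1 - (1 / 2) * z.im) x
      rw [e3]
      exact (hdim (-(1 / 2))).differentiableAt) (by
    intro i
    have hkx : k' x = 1 := by simp only [k']; field_simp
    fin_cases i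
    · show (a x)⁻¹ * a x = k' x
      rw [hkx]; field_simp
    · show (b x)⁻¹ * b x = k' x
      rw [hkx]; field_simp
    · show 1 + (1 / 2) * ((x : ℂ)).im = k' x
      rw [hkx]; simp
    · show 1 - (1 / 2) * ((x : ℂ)).im = k' x
      rw [hkx]; simp) (by
    intro v hv
    have ek : fderiv ℝ k' x v = v.re / x * (fderiv ℝ k x x / k x) := by
      rw [hfd k _ hk, fderiv_decomp hx hkI]
      ring
    rcases lt_trichotomy (v.re / x) 0 with hs | hs | hs
    · refine ⟨1, ?_⟩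
      have eb : fderiv ℝ (h 1) x v = v.re / x * (fderiv ℝ b x x / b x) := by
        show fderiv ℝ (fun z => (b x)⁻¹ * b z) x v = _
        rw [hfd b _ hb, fderiv_decomp hx hbI]
        ring
      rw [ek, eb]
      nlinarith
    · have hre : v.re = 0 := by
        rcases div_eq_zero_iff.1 hs with h | h
        · exact h
        · exact absurd h hx
      have him : v.im ≠ 0 := by
        intro h
        exact hv (Complex.ext (by simpa using hre) (by simpa using h))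
      rcases lt_or_gt_of_ne him with hi | hi
      · refine ⟨3, ?_⟩
        have : fderiv ℝ (h 3) x v = -(1 / 2) * v.im := by
          show fderiv ℝ (fun z : ℂ => 1 - (1 / 2) * z.im) x v = _
          rw [e3, (hdim (-(1 / 2))).fderiv]
          simp
        rw [ek, hs, this]
        linarith
      · refine ⟨2, ?_⟩
        have : fderiv ℝ (h 2) x v = (1 / 2) * v.im := by
          show fderiv ℝ (fun z : ℂ => 1 + (1 / 2) * z.im) x v = _
          rw [(hdim (1 / 2)).fderiv]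
          simp
        rw [ek, hs, this]
        linarith
    · refine ⟨0, ?_⟩
      have ea : fderiv ℝ (h 0) x v = v.re / x * (fderiv ℝ a x x / a x) := by
        show fderiv ℝ (fun z => (a x)⁻¹ * a z) x v = _
        rw [hfd a _ ha, fderiv_decomp hx haI]
        ring
      rw [ek, ea]
      nlinarith)
  filter_upwards [key] with z hz
  obtain ⟨i, hi⟩ := hz
  have hk' : k' z = k z / k x := by simp only [k']; rw [div_eq_inv_mul]
  rw [hk'] at hi
  fin_cases i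
  · left
    have hi' : k z / k x < (a x)⁻¹ * a z := hi
    rwa [div_eq_inv_mul (a z)]
  · right; left
    have hi' : k z / k x < (b x)⁻¹ * b z := hi
    rwa [div_eq_inv_mul (b z)]
  · right; right; left
    exact hi
  · right; right; right
    exact hi

end Pool.Agent.Lib.MP_e6ddea_an.Ann
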