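import Mathlib
import Pool.Agent.Lib.MP_e6ddea_an.Ann.MinimalA

set_option autoImplicit false

open InnerProductSpace Metric Set Filter Topology Real

namespace Pool.Agent.Lib.MP_e6ddea_an.Ann

theorem outer_pk : Outer 0 (pk 1) where
  harm := fun w hw => pk_harmonic (by simp) hw.2
  nonneg := fun w hw => (pk_pos (by simp) hw.2).le
  avg := by
    apply tendsto_const_nhds.congr'
    filter_upwards [Ioo_mem_nhdsLT (show (0 : ℝ) < 1 by norm_num)] with ρ hρ
    exact (avg_pk hρ.1 hρ.2).symm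
  conc := by
    intro n η hη
    exact Ann.conc (K := pk 1) (R := fun _ => 0) (a := 1 / 2) (fun w _ => by simp) (by norm_num)
      continuousOn_const (fun w _ => rfl) n hη

theorem pk_le_three {w : ℂ} (hw : ‖w‖ ≤ 1 / 2) : pk 1 w ≤ 3 := by
  rw [pk_eq (by simp)]
  have h1 : 1 - ‖w‖ ≤ ‖1 - w‖ := by
    have := norm_sub_norm_le (1 : ℂ) w
    rwa [norm_one] at this
  have h2 : 0 < 1 - ‖w‖ := by linarith
  have h0 := norm_nonneg w
  rw [div_le_iff₀ (by
    have : 0 < ‖1 - w‖ := by linarith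
    positivity)]
  have h3 : (1 - ‖w‖) ^ 2 ≤ ‖1 - w‖ ^ 2 := pow_le_pow_left₀ h2.le h1 2
  nlinarith

/-- The Poisson kernel is minimal on the punctured disc. -/
theorem pk_minimal0 (u : ℂ → ℝ) (hu : HarmonicOnNhd u (An 0))
    (hle : ∀ w ∈ An 0, 0 < u w ∧ u w ≤ pk 1 w) : ∃ c : ℝ, ∀ w ∈ An 0, u w = c * pk 1 w := by
  have h1 : (0 : ℝ) < 1 := one_pos
  have hO := outer_pk
  have hle' : ∀ w ∈ An 0, 0 ≤ u w ∧ u w ≤ pk 1 w := fun w hw => ⟨(hle w hw).1.le, (hle w hw).2⟩
  obtain ⟨F, c, hFne, hF, hc⟩ := exists_mass le_rfl h1 hO hu hle'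
  refine ⟨c, ?_⟩
  let d : ℂ → ℝ := fun w => u w - c * pk 1 w
  have hdh : HarmonicOnNhd d (An 0) := by
    intro w hw
    exact (hu w hw).sub ((hO.harm w hw).const_smul (c := c))
  have hdle : ∀ w ∈ An 0, |d w| ≤ (1 + |c|) * pk 1 w := by
    intro w hw
    have h2 := hle' w hw
    have h3 := hO.nonneg w hw
    calc |u w - c * pk 1 w| ≤ |u w| + |c * pk 1 w| := abs_sub _ _
      _ = u w + |c| * pk 1 w := by rw [abs_of_nonneg h2.1, abs_mul, abs_of_nonneg h3]
      _ ≤ _ := by linarith
  set B : ℝ := (1 + |c|) * 3 with hB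
  have hBpos : 0 < B := by positivity
  have hdB : ∀ w ∈ An 0, ‖w‖ ≤ 1 / 2 → |d w| ≤ B := by
    intro w hw hw2
    exact (hdle w hw).trans (mul_le_mul_of_nonneg_left (pk_le_three hw2) (by positivity))
  -- modes of d vanish
  have hmodes : ∀ n : ℤ, n ≠ 0 → ∀ ρ ∈ Ioo (0 : ℝ) 1,
      circleAverage (fun w => (d w : ℂ) * w ^ (-n)) 0 ρ = 0 := by
    intro n hn
    obtain ⟨α, β, hαβ⟩ := modes le_rfl hdh hn
    -- outer limit
    have l1 := outer_limit le_rfl h1 hO hu hle' hF hc n
    have l2 := outer_limit le_rfl h1 hO hO.harm (fun w hw => ⟨hO.nonneg w hw, le_rfl⟩) hF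
      (hO.avg.mono_left hF) n
    have l3 : Tendsto (fun ρ => circleAverage (fun w => (d w : ℂ) * w ^ (-n)) 0 ρ) F (𝓝 0) := by
      have l4 := l1.sub (l2.const_mul (c : ℂ))
      simp only [Complex.ofReal_one, mul_one, sub_self] at l4
      apply l4.congr'
      filter_upwards [hF (Ioo_mem_nhdsLT h1)] with ρ hρ
      have hρ0 : 0 < ρ := hρ.1
      have hs := sphere_sub_An hρ
      have hcz : ContinuousOn (fun w : ℂ => w ^ (-n)) (sphere 0 ρ) := fun w hw =>
        (continuousAt_zpow₀ _ _ (Or.inl (An_ne_zero le_rfl (hs hw)))).continuousWithinAt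
      have hcu : ContinuousOn (fun w => (u w : ℂ)) (sphere 0 ρ) :=
        Complex.continuous_ofReal.comp_continuousOn (hu.continuousOn.mono hs)
      have hcK : ContinuousOn (fun w => (pk 1 w : ℂ)) (sphere 0 ρ) :=
        Complex.continuous_ofReal.comp_continuousOn (hO.harm.continuousOn.mono hs)
      have e1 := circleAverage_fun_smul (a := (c : ℂ)) (f := fun w => (pk 1 w : ℂ) * w ^ (-n))
        (c := 0) (R := ρ)
      simp only [smul_eq_mul] at e1
      have i1 : CircleIntegrable (fun w => (u w : ℂ) * w ^ (-n)) 0 ρ :=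
        ContinuousOn.circleIntegrable hρ0.le (hcu.mul hcz)
      have i2 : CircleIntegrable (fun w => (c : ℂ) * ((pk 1 w : ℂ) * w ^ (-n))) 0 ρ :=
        ContinuousOn.circleIntegrable hρ0.le (continuousOn_const.mul (hcK.mul hcz))
      rw [← e1, ← circleAverage_sub i1 i2]
      congr 1
      ext w
      simp only [Pi.sub_apply, d]
      push_cast
      ring
    have hlimF : Tendsto (fun ρ : ℝ => α + β * ((ρ : ℂ) ^ 2) ^ (-n)) F (𝓝 (α + β)) := by
      have hc1 : ContinuousAt (fun ρ : ℝ => α + β * ((ρ : ℂ) ^ 2) ^ (-n)) 1 := by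
        apply ContinuousAt.add continuousAt_const
        apply ContinuousAt.mul continuousAt_const
        apply ContinuousAt.zpow₀ (by fun_prop)
        left
        simp
      have := hc1.tendsto
      simp only [Complex.ofReal_one, one_pow, one_zpow, mul_one] at this
      exact this.mono_left (hF.trans nhdsWithin_le_nhds)
    have hab : α + β = 0 := by
      have l5 : Tendsto (fun ρ : ℝ => α + β * ((ρ : ℂ) ^ 2) ^ (-n)) F (𝓝 0) := by
        apply l3.congr'
        filter_upwards [hF (Ioo_mem_nhdsLT h1)] with ρ hρ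
        exact hαβ ρ hρ
      exact tendsto_nhds_unique hlimF l5
    -- inner bound
    have hbound : ∀ ρ ∈ Ioo (0 : ℝ) (1 / 2), ‖α + β * ((ρ : ℂ) ^ 2) ^ (-n)‖ ≤ B * ρ ^ (-n) := by
      intro ρ hρ
      have hρ' : ρ ∈ Ioo (0 : ℝ) 1 := ⟨hρ.1, by linarith [hρ.2]⟩
      have hρ0 : 0 < ρ := hρ.1
      have hs := sphere_sub_An hρ'
      rw [← hαβ ρ hρ']
      refine norm_circleAverage_le.trans ?_
      have hcz : ContinuousOn (fun w : ℂ => w ^ (-n)) (sphere 0 ρ) := fun w hw =>
        (continuousAt_zpow₀ _ _ (Or.inl (An_ne_zero le_rfl (hs hw)))).continuousWithinAt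
      have hcd : ContinuousOn (fun w => (d w : ℂ)) (sphere 0 ρ) :=
        Complex.continuous_ofReal.comp_continuousOn (hdh.continuousOn.mono hs)
      apply circleAverage_mono_on_of_le_circle
      · exact ContinuousOn.circleIntegrable hρ0.le ((hcd.mul hcz).norm)
      · intro w hw
        rw [abs_of_pos hρ0] at hw
        have hwA := hs hw
        rw [mem_sphere, dist_zero_right] at hw
        rw [norm_mul, Complex.norm_real, Real.norm_eq_abs, norm_zpow, hw]
        exact mul_le_mul_of_nonneg_right (hdB w hwA (by rw [hw]; exact hρ.2.le))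
          (zpow_pos hρ0 _).le
    have hzero : α = 0 ∧ β = 0 := by
      rcases lt_or_gt_of_ne hn with hneg | hpos
      · -- n < 0
        obtain ⟨m, hm⟩ : ∃ m : ℕ, -n = (m : ℤ) := ⟨(-n).toNat, by omega⟩
        have hm0 : m ≠ 0 := by omega
        have t1 : Tendsto (fun ρ : ℝ => α + β * ((ρ : ℂ) ^ 2) ^ m) (𝓝[>] 0) (𝓝 α) := by
          have : Continuous (fun ρ : ℝ => α + β * ((ρ : ℂ) ^ 2) ^ m) := by fun_prop
          have h3 := this.tendsto 0
          simp only [Complex.ofReal_zero, ne_eq, OfNat.ofNat_ne_zero, not_false_eq_true,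
            zero_pow, hm0, mul_zero, add_zero] at h3
          exact h3.mono_left nhdsWithin_le_nhds
        have t2 : Tendsto (fun ρ : ℝ => B * ρ ^ m) (𝓝[>] 0) (𝓝 0) := by
          have : Continuous (fun ρ : ℝ => B * ρ ^ m) := by fun_prop
          have h3 := this.tendsto 0
          simp only [ne_eq, hm0, not_false_eq_true, zero_pow, mul_zero] at h3
          exact h3.mono_left nhdsWithin_le_nhds
        have t3 : Tendsto (fun ρ : ℝ => α + β * ((ρ : ℂ) ^ 2) ^ m) (𝓝[>] 0) (𝓝 0) := by
          apply squeeze_zero_norm' _ t2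
          filter_upwards [Ioo_mem_nhdsGT (show (0 : ℝ) < 1 / 2 by norm_num)] with ρ hρ
          have := hbound ρ hρ
          rwa [hm, zpow_natCast, zpow_natCast] at this
        have hα : α = 0 := tendsto_nhds_unique t1 t3
        exact ⟨hα, by rw [hα, zero_add] at hab; exact hab⟩
      · obtain ⟨m, hm⟩ : ∃ m : ℕ, n = (m : ℤ) := ⟨n.toNat, by omega⟩
        have hm0 : m ≠ 0 := by omega
        have t1 : Tendsto (fun ρ : ℝ => α * ((ρ : ℂ) ^ 2) ^ m + β) (𝓝[>] 0) (𝓝 β) := by
          have : Continuous (fun ρ : ℝ => α * ((ρ : ℂ) ^ 2) ^ m + β) := by fun_prop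
          have h3 := this.tendsto 0
          simp only [Complex.ofReal_zero, ne_eq, OfNat.ofNat_ne_zero, not_false_eq_true,
            zero_pow, hm0, mul_zero, zero_add] at h3
          exact h3.mono_left nhdsWithin_le_nhds
        have t2 : Tendsto (fun ρ : ℝ => B * ρ ^ m) (𝓝[>] 0) (𝓝 0) := by
          have : Continuous (fun ρ : ℝ => B * ρ ^ m) := by fun_prop
          have h3 := this.tendsto 0
          simp only [ne_eq, hm0, not_false_eq_true, zero_pow, mul_zero] at h3
          exact h3.mono_left nhdsWithin_le_nhds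
        have t3 : Tendsto (fun ρ : ℝ => α * ((ρ : ℂ) ^ 2) ^ m + β) (𝓝[>] 0) (𝓝 0) := by
          apply squeeze_zero_norm' _ t2
          filter_upwards [Ioo_mem_nhdsGT (show (0 : ℝ) < 1 / 2 by norm_num)] with ρ hρ
          have h4 := hbound ρ hρ
          have hρ0 : 0 < ρ := hρ.1
          have hρC : ((ρ : ℂ) ^ 2) ≠ 0 := pow_ne_zero _ (by exact_mod_cast hρ0.ne')
          have e : α * ((ρ : ℂ) ^ 2) ^ m + β =
              ((ρ : ℂ) ^ 2) ^ m * (α + β * ((ρ : ℂ) ^ 2) ^ (-n)) := by
            rw [hm, zpow_neg, zpow_natCast]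
            field_simp
          rw [e, norm_mul]
          have e2 : ‖((ρ : ℂ) ^ 2) ^ m‖ = (ρ ^ 2) ^ m := by
            rw [norm_pow, norm_pow, Complex.norm_real, Real.norm_eq_abs, abs_of_pos hρ0]
          rw [e2]
          calc (ρ ^ 2) ^ m * ‖α + β * ((ρ : ℂ) ^ 2) ^ (-n)‖ ≤ (ρ ^ 2) ^ m * (B * ρ ^ (-n)) :=
                mul_le_mul_of_nonneg_left h4 (by positivity)
            _ = B * ρ ^ m := by
                rw [hm, zpow_neg, zpow_natCast, ← pow_mul, two_mul, pow_add]
                field_simp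
        have hβ : β = 0 := tendsto_nhds_unique t1 t3
        exact ⟨by rw [hβ, add_zero] at hab; exact hab, hβ⟩
    intro ρ hρ
    rw [hαβ ρ hρ, hzero.1, hzero.2]
    simp
  have hrad := radial_of_modes le_rfl hdh.continuousOn hmodes
  have hlim0 : Tendsto (fun ρ => circleAverage d 0 ρ) F (𝓝 0) := by
    have l4 := hc.sub ((hO.avg.mono_left hF).const_mul c)
    simp only [mul_one, sub_self] at l4
    apply l4.congr'
    filter_upwards [hF (Ioo_mem_nhdsLT h1)] with ρ hρ
    have hρ0 : 0 < ρ := hρ.1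
    have hs := sphere_sub_An hρ
    have e1 := circleAverage_fun_smul (a := c) (f := pk 1) (c := 0) (R := ρ)
    simp only [smul_eq_mul] at e1
    have i1 : CircleIntegrable u 0 ρ :=
      ContinuousOn.circleIntegrable hρ0.le (hu.continuousOn.mono hs)
    have i2 : CircleIntegrable (fun w => c * pk 1 w) 0 ρ :=
      ContinuousOn.circleIntegrable hρ0.le
        (continuousOn_const.mul (hO.harm.continuousOn.mono hs))
    rw [← e1, ← circleAverage_sub i1 i2]
    rfl
  have hzero := radial_zero le_rfl hdh hrad hFne hF hlim0 (b := fun w => -Real.log ‖w‖)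
    (fun w hw => ((analyticAt_id (𝕜 := ℂ) (z := w)).harmonicAt_log_norm
      (An_ne_zero le_rfl hw)).neg)
    (fun w hw => by
      have := Real.log_nonpos (norm_nonneg w) hw.2.le
      linarith) (by
      intro ε hε δ hδ p hp
      have hp0 : p = 0 := by simpa using hp
      subst hp0
      have h5 : ball (0 : ℂ) (min (1 / 2) (Real.exp (-(B / ε)))) ∈ 𝓝 (0 : ℂ) :=
        ball_mem_nhds _ (by positivity)
      filter_upwards [h5] with z hz hzA
      rw [mem_ball, dist_zero_right] at hz
      have hz1 : ‖z‖ < 1 / 2 := lt_of_lt_of_le hz (min_le_left _ _)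
      have hz2 : ‖z‖ < Real.exp (-(B / ε)) := lt_of_lt_of_le hz (min_le_right _ _)
      have h6 := hdB z hzA hz1.le
      have h7 : Real.log ‖z‖ < -(B / ε) := by
        have := Real.log_lt_log hzA.1 hz2
        rwa [Real.log_exp] at this
      have h8 : B < ε * -Real.log ‖z‖ := by
        have h9 : B / ε < -Real.log ‖z‖ := by linarith
        rw [div_lt_iff₀ hε] at h9
        linarith
      linarith)
  intro w hw
  have := hzero w hw
  simp only [d] at this
  linarith

end Pool.Agent.Lib.MP_e6ddea_an.Ann
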