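import Mathlib
import Pool.Agent.Lib.MP_e6ddea_an.Ann.Local
import Pool.Agent.Lib.MP_e6ddea_an.Ann.MinimalB

set_option autoImplicit false

open InnerProductSpace Metric Set Filter Topology Real

namespace Pool.Agent.Lib.MP_e6ddea_an.Ann

/-- Model statement: at `x` (a negative real point of the annulus) the kernel `k` is positive,
harmonic, minimal and strictly below normalised positive harmonic functions near `x`. -/
def Model (r x : ℝ) (k : ℂ → ℝ) : Prop :=
  HarmonicOnNhd k (An r) ∧ (∀ w ∈ An r, 0 < k w) ∧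
  (∀ u : ℂ → ℝ, HarmonicOnNhd u (An r) → (∀ w ∈ An r, 0 < u w ∧ u w ≤ k w) →
    ∃ c : ℝ, ∀ w ∈ An r, u w = c * k w) ∧
  ∀ᶠ z in 𝓝[≠] (x : ℂ), ∃ h : ℂ → ℝ, HarmonicOnNhd h (An r) ∧ (∀ w ∈ An r, 0 < h w) ∧
    h x = 1 ∧ k z / k x < h z

theorem harmonicAt_im_aff (c : ℝ) (w : ℂ) : HarmonicAt (fun z : ℂ => 1 + c * z.im) w := by
  have a1 := (analyticAt_id (𝕜 := ℂ) (z := w)).harmonicAt_im.const_smul (c := c)
  exact (harmonicAt_const (x := w) (1 : ℝ)).add a1

theorem im_test_pos {r : ℝ} {w : ℂ} (hw : w ∈ An r) :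
    0 < 1 + (1 / 2) * w.im ∧ 0 < 1 - (1 / 2) * w.im := by
  have h := Complex.abs_im_le_norm w
  have h2 := hw.2
  have h3 := abs_le.1 h
  constructor <;> linarith [h3.1, h3.2]

theorem model_of_compare {r x : ℝ} {k a b : ℂ → ℝ}
    (hkh : HarmonicOnNhd k (An r)) (hkp : ∀ w ∈ An r, 0 < k w)
    (hkm : ∀ u : ℂ → ℝ, HarmonicOnNhd u (An r) → (∀ w ∈ An r, 0 < u w ∧ u w ≤ k w) →
      ∃ c : ℝ, ∀ w ∈ An r, u w = c * k w)
    (ha : HarmonicOnNhd a (An r)) (hap : ∀ w ∈ An r, 0 < a w)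
    (hb : HarmonicOnNhd b (An r)) (hbp : ∀ w ∈ An r, 0 < b w)
    (hxA : (x : ℂ) ∈ An r)
    (hcmp : ∀ᶠ z in 𝓝[≠] (x : ℂ), k z / k x < a z / a x ∨ k z / k x < b z / b x ∨
      k z / k x < 1 + (1 / 2) * z.im ∨ k z / k x < 1 - (1 / 2) * z.im) : Model r x k := by
  refine ⟨hkh, hkp, hkm, ?_⟩
  filter_upwards [hcmp] with z hz
  rcases hz with h | h | h | h
  · refine ⟨fun w => (a x)⁻¹ * a w, ?_, ?_, ?_, ?_⟩
    · intro w hw
      exact (ha w hw).const_smul (c := (a x)⁻¹)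
    · intro w hw
      exact mul_pos (inv_pos.2 (hap _ hxA)) (hap w hw)
    · exact inv_mul_cancel₀ (hap _ hxA).ne'
    · rwa [div_eq_inv_mul (a z)] at h
  · refine ⟨fun w => (b x)⁻¹ * b w, ?_, ?_, ?_, ?_⟩
    · intro w hw
      exact (hb w hw).const_smul (c := (b x)⁻¹)
    · intro w hw
      exact mul_pos (inv_pos.2 (hbp _ hxA)) (hbp w hw)
    · exact inv_mul_cancel₀ (hbp _ hxA).ne'
    · rwa [div_eq_inv_mul (b z)] at h
  · exact ⟨fun w => 1 + (1 / 2) * w.im, fun w _ => harmonicAt_im_aff _ w,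
      fun w hw => (im_test_pos hw).1, by simp, h⟩
  · refine ⟨fun w => 1 - (1 / 2) * w.im, fun w _ => ?_,
      fun w hw => (im_test_pos hw).2, by simp, h⟩
    have := harmonicAt_im_aff (-(1 / 2)) w
    have e : (fun z : ℂ => 1 - (1 / 2) * z.im) = fun z : ℂ => 1 + (-(1 / 2) : ℝ) * z.im := by
      ext z; ring
    rw [e]
    exact this

/-- The model for `0 < r < 1`. -/
theorem model_pos {r : ℝ} (h0 : 0 < r) (h1 : r < 1) {s : ℝ} (hs : s ∈ Ioo 0 (-Real.log r)) :
    Model r (-(r * Real.exp s)) (KK r) := by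
  have hxA : ((-(r * Real.exp s) : ℝ) : ℂ) ∈ An r := pt_mem h0 hs
  have hx0 : (-(r * Real.exp s) : ℝ) ≠ 0 := by
    have : 0 < r * Real.exp s := by positivity
    linarith
  have hxC : ((-(r * Real.exp s) : ℝ) : ℂ) ≠ 0 := An_ne_zero h0.le hxA
  have hdk : DifferentiableAt ℝ (KK r) ((-(r * Real.exp s) : ℝ) : ℂ) :=
    (harmonicAt_KK h0 h1 hxA).1.differentiableAt two_ne_zero
  have hda : DifferentiableAt ℝ (hout r) ((-(r * Real.exp s) : ℝ) : ℂ) :=
    (harmonicAt_hout hxC).1.differentiableAt two_ne_zero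
  have hdb : DifferentiableAt ℝ (hin r) ((-(r * Real.exp s) : ℝ) : ℂ) :=
    (harmonicAt_hin hxC).1.differentiableAt two_ne_zero
  apply model_of_compare (a := hout r) (b := hin r) (fun w hw => harmonicAt_KK h0 h1 hw)
    (KK_pos h0 h1) (KK_minimal h0 h1)
    (fun w hw => harmonicAt_hout (An_ne_zero h0.le hw)) (fun w hw => hout_pos h0 hw)
    (fun w hw => harmonicAt_hin (An_ne_zero h0.le hw)) (fun w hw => hin_pos h0 hw) hxA
  have hk0 : 0 < KK r ((-(r * Real.exp s) : ℝ) : ℂ) := KK_pos h0 h1 _ hxA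
  have ha0 : 0 < hout r ((-(r * Real.exp s) : ℝ) : ℂ) := hout_pos h0 hxA
  have hb0 : 0 < hin r ((-(r * Real.exp s) : ℝ) : ℂ) := hin_pos h0 hxA
  obtain ⟨q1, q2⟩ := slope_ineq h0 h1 hs
  set L : ℝ := -Real.log r with hL
  have ht : 0 < L - s := by linarith [hs.2]
  -- derivatives of the test functions
  have e1 : fderiv ℝ (hout r) (pt r s) (pt r s) = 1 + r * Real.cosh s := by
    apply fderiv_pt hda
    have : (fun s => hout r (pt r s)) = fun s => s + r * Real.sinh s := by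
      ext s; exact hout_pt h0 s
    rw [this]
    exact (hasDerivAt_id s).add ((Real.hasDerivAt_sinh s).const_mul r)
  have e2 : fderiv ℝ (hin r) (pt r s) (pt r s) = -1 - r * Real.cosh (L - s) := by
    apply fderiv_pt hdb
    have : (fun s => hin r (pt r s)) = fun s => (L - s) + r * Real.sinh (L - s) := by
      ext s; exact hin_pt h0 s
    rw [this]
    have d1 : HasDerivAt (fun s : ℝ => L - s) (-1) s := by
      simpa using (hasDerivAt_id s).const_sub L
    have d2 : HasDerivAt (fun s : ℝ => Real.sinh (L - s)) (Real.cosh (L - s) * -1) s :=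
      (Real.hasDerivAt_sinh (L - s)).comp s d1
    have d3 := d1.add (d2.const_mul r)
    refine HasDerivAt.congr_deriv d3 ?_
    ring
  have v1 : hout r (pt r s) = s + r * Real.sinh s := hout_pt h0 s
  have v2 : hin r (pt r s) = (L - s) + r * Real.sinh (L - s) := hin_pt h0 s
  have s1 := sinh_lt hs.1
  have s2 := sinh_lt ht
  have p1 : 0 < s + r * Real.sinh s := by rw [← v1]; exact ha0
  have p2 : 0 < (L - s) + r * Real.sinh (L - s) := by rw [← v2]; exact hb0
  have hk0' : 0 < KK r (pt r s) := hk0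
  have c1 : fderiv ℝ (KK r) (pt r s) (pt r s) / KK r (pt r s) <
      fderiv ℝ (hout r) (pt r s) (pt r s) / hout r (pt r s) := by
    have a1 : fderiv ℝ (KK r) (pt r s) (pt r s) / KK r (pt r s) ≤ 1 / s := by
      rw [div_le_div_iff₀ hk0' hs.1]
      linarith
    have a2 : 1 / s < fderiv ℝ (hout r) (pt r s) (pt r s) / hout r (pt r s) := by
      rw [e1, v1, div_lt_div_iff₀ hs.1 p1]
      nlinarith
    linarith
  have c2 : fderiv ℝ (hin r) (pt r s) (pt r s) / hin r (pt r s) <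
      fderiv ℝ (KK r) (pt r s) (pt r s) / KK r (pt r s) := by
    have a1 : -1 / (L - s) ≤ fderiv ℝ (KK r) (pt r s) (pt r s) / KK r (pt r s) := by
      rw [div_le_div_iff₀ ht hk0']
      linarith
    have a2 : fderiv ℝ (hin r) (pt r s) (pt r s) / hin r (pt r s) < -1 / (L - s) := by
      rw [e2, v2, div_lt_div_iff₀ p2 ht]
      nlinarith
    linarith
  exact local_compare hx0 hdk hda hdb (fderiv_I_zero (KK_symm r) hdk)
    (fderiv_I_zero (hout_symm r) hda) (fderiv_I_zero (hin_symm r) hdb) hk0 ha0 hb0 c1 c2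

/-- Real points: the model for `0 < r < 1` at every point of `(-1, -r)`. -/
theorem model_pos' {r : ℝ} (h0 : 0 < r) (h1 : r < 1) {x : ℝ} (hx1 : r < x) (hx2 : x < 1) :
    Model r (-x) (KK r) := by
  have hx0 : 0 < x := h0.trans hx1
  have hs : Real.log (x / r) ∈ Ioo 0 (-Real.log r) := by
    constructor
    · apply Real.log_pos
      rwa [one_lt_div h0]
    · rw [Real.log_div hx0.ne' h0.ne']
      have := Real.log_neg hx0 hx2
      linarith
  have h := model_pos h0 h1 hs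
  rw [Real.exp_log (by positivity)] at h
  have e : r * (x / r) = x := by field_simp
  rwa [e] at h

/-- The model for the punctured disc. -/
theorem model_zero {x : ℝ} (hx1 : 0 < x) (hx2 : x < 1) : Model 0 (-x) (pk 1) := by
  have hxA : ((-x : ℝ) : ℂ) ∈ An 0 := by
    refine ⟨?_, ?_⟩
    · rw [Complex.norm_real, Real.norm_eq_abs, abs_neg, abs_of_pos hx1]
      exact hx1
    · rw [Complex.norm_real, Real.norm_eq_abs, abs_neg, abs_of_pos hx1]
      exact hx2
  have hx0 : (-x : ℝ) ≠ 0 := by linarith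
  have hxC : ((-x : ℝ) : ℂ) ≠ 0 := An_ne_zero le_rfl hxA
  have hxne : ((-x : ℝ) : ℂ) ≠ 1 := by
    intro h
    have := congrArg Complex.re h
    rw [Complex.ofReal_re, Complex.one_re] at this
    linarith
  have hm1 : ‖(-1 : ℂ)‖ = 1 := by simp
  have hloghar : ∀ w ∈ An 0, HarmonicAt (fun z : ℂ => -Real.log ‖z‖) w := fun w hw =>
    ((analyticAt_id (𝕜 := ℂ) (z := w)).harmonicAt_log_norm (An_ne_zero le_rfl hw)).neg
  apply model_of_compare (a := pk (-1)) (b := fun w : ℂ => -Real.log ‖w‖)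
    (fun w hw => pk_harmonic (by simp) hw.2)
    (fun w hw => pk_pos (by simp) hw.2) pk_minimal0
    (fun w hw => pk_harmonic hm1 hw.2) (fun w hw => pk_pos hm1 hw.2)
    hloghar (fun w hw => by
      have := Real.log_neg hw.1 hw.2
      linarith) hxA
  have hdk : DifferentiableAt ℝ (pk 1) ((-x : ℝ) : ℂ) := (hasFDerivAt_pk hxne 0).1
  have hda : DifferentiableAt ℝ (pk (-1)) ((-x : ℝ) : ℂ) :=
    (pk_harmonic hm1 hxA.2).1.differentiableAt two_ne_zero
  have hdb : DifferentiableAt ℝ (fun w : ℂ => -Real.log ‖w‖) ((-x : ℝ) : ℂ) :=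
    (hloghar _ hxA).1.differentiableAt two_ne_zero
  have asymm : ∀ w, pk (-1) ((starRingEnd ℂ) w) = pk (-1) w := by
    intro w
    have : (-1 + (starRingEnd ℂ) w) / (-1 - (starRingEnd ℂ) w) =
        (starRingEnd ℂ) ((-1 + w) / (-1 - w)) := by simp
    rw [pk, pk, this, Complex.conj_re]
  have bsymm : ∀ w : ℂ, -Real.log ‖(starRingEnd ℂ) w‖ = -Real.log ‖w‖ := by
    intro w; rw [Complex.norm_conj]
  have hk0 : 0 < pk 1 ((-x : ℝ) : ℂ) := pk_pos (by simp) hxA.2
  have ha0 : 0 < pk (-1) ((-x : ℝ) : ℂ) := pk_pos hm1 hxA.2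
  have hb0 : 0 < -Real.log ‖((-x : ℝ) : ℂ)‖ := by
    have := Real.log_neg hxA.1 hxA.2
    linarith
  -- use the curve parametrisation
  have hcurve : HasDerivAt (fun s : ℝ => ((-(x * Real.exp s) : ℝ) : ℂ)) ((-x : ℝ) : ℂ) 0 := by
    have h1 : HasDerivAt (fun s : ℝ => -(x * Real.exp s)) (-(x * Real.exp 0)) 0 :=
      ((Real.hasDerivAt_exp 0).const_mul x).neg
    have := h1.ofReal_comp
    simpa using this
  have hfd : ∀ (F : ℂ → ℝ) (d : ℝ), DifferentiableAt ℝ F ((-x : ℝ) : ℂ) →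
      HasDerivAt (fun s : ℝ => F ((-(x * Real.exp s) : ℝ) : ℂ)) d 0 →
      fderiv ℝ F ((-x : ℝ) : ℂ) ((-x : ℝ) : ℂ) = d := by
    intro F d hF hd
    have h2 : HasFDerivAt F (fderiv ℝ F ((-x : ℝ) : ℂ)) ((-(x * Real.exp 0) : ℝ) : ℂ) := by
      simpa using hF.hasFDerivAt
    have h3 : HasDerivAt (fun s : ℝ => F ((-(x * Real.exp s) : ℝ) : ℂ))
        (fderiv ℝ F ((-x : ℝ) : ℂ) ((-x : ℝ) : ℂ)) 0 := by
      exact HasFDerivAt.comp_hasDerivAt (f := fun s : ℝ => ((-(x * Real.exp s) : ℝ) : ℂ)) 0 h2 hcurve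
    exact h3.unique hd
  have hexp0 : HasDerivAt (fun s : ℝ => x * Real.exp s) x 0 := by
    simpa using (Real.hasDerivAt_exp 0).const_mul x
  -- kernel
  have v0 : ∀ y : ℝ, pk 1 ((-y : ℝ) : ℂ) = (1 - y) / (1 + y) := by
    intro y
    have : (1 + ((-y : ℝ) : ℂ)) / (1 - ((-y : ℝ) : ℂ)) = (((1 - y) / (1 + y) : ℝ) : ℂ) := by
      push_cast
      ring
    rw [pk, this, Complex.ofReal_re]
  have v1 : ∀ y : ℝ, pk (-1) ((-y : ℝ) : ℂ) = (1 + y) / (1 - y) := by
    intro y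
    have : (-1 + ((-y : ℝ) : ℂ)) / (-1 - ((-y : ℝ) : ℂ)) = (((1 + y) / (1 - y) : ℝ) : ℂ) := by
      push_cast
      rw [show (-1 + -(y : ℂ)) = -(1 + y) by ring, show (-1 - -(y : ℂ)) = -(1 - y) by ring,
        neg_div_neg_eq]
    rw [pk, this, Complex.ofReal_re]
  have v2 : ∀ y : ℝ, 0 < y → -Real.log ‖((-y : ℝ) : ℂ)‖ = -Real.log y := by
    intro y hy
    rw [Complex.norm_real, Real.norm_eq_abs, abs_neg, abs_of_pos hy]
  have e0 : fderiv ℝ (pk 1) ((-x : ℝ) : ℂ) ((-x : ℝ) : ℂ) = -2 * x / (1 + x) ^ 2 := by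
    apply hfd _ _ hdk
    have : (fun s : ℝ => pk 1 ((-(x * Real.exp s) : ℝ) : ℂ)) =
        fun s => (1 - x * Real.exp s) / (1 + x * Real.exp s) := by ext s; exact v0 _
    rw [this]
    have d1 : HasDerivAt (fun s : ℝ => 1 - x * Real.exp s) (-x) 0 := by
      simpa using hexp0.const_sub 1
    have d2 : HasDerivAt (fun s : ℝ => 1 + x * Real.exp s) x 0 := by
      simpa using hexp0.const_add 1
    have hne : 1 + x * Real.exp 0 ≠ 0 := by
      rw [Real.exp_zero]; linarith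
    have d3 := d1.div d2 hne
    simp only [Real.exp_zero, mul_one] at d3
    refine HasDerivAt.congr_deriv d3 ?_
    ring
  have e1 : fderiv ℝ (pk (-1)) ((-x : ℝ) : ℂ) ((-x : ℝ) : ℂ) = 2 * x / (1 - x) ^ 2 := by
    apply hfd _ _ hda
    have : (fun s : ℝ => pk (-1) ((-(x * Real.exp s) : ℝ) : ℂ)) =
        fun s => (1 + x * Real.exp s) / (1 - x * Real.exp s) := by ext s; exact v1 _
    rw [this]
    have d1 : HasDerivAt (fun s : ℝ => 1 - x * Real.exp s) (-x) 0 := by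
      simpa using hexp0.const_sub 1
    have d2 : HasDerivAt (fun s : ℝ => 1 + x * Real.exp s) x 0 := by
      simpa using hexp0.const_add 1
    have hne : 1 - x * Real.exp 0 ≠ 0 := by
      rw [Real.exp_zero]; linarith
    have d3 := d2.div d1 hne
    simp only [Real.exp_zero, mul_one] at d3
    refine HasDerivAt.congr_deriv d3 ?_
    ring
  have e2 : fderiv ℝ (fun w : ℂ => -Real.log ‖w‖) ((-x : ℝ) : ℂ) ((-x : ℝ) : ℂ) = -1 := by
    apply hfd _ _ hdb
    have : (fun s : ℝ => -Real.log ‖((-(x * Real.exp s) : ℝ) : ℂ)‖) =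
        fun s => -(Real.log x + s) := by
      ext s
      rw [v2 _ (by positivity), Real.log_mul hx1.ne' (Real.exp_pos s).ne', Real.log_exp]
    rw [this]
    exact ((hasDerivAt_id (0 : ℝ)).const_add (Real.log x)).neg
  have ht : 0 < -Real.log x := by
    have := Real.log_neg hx1 hx2
    linarith
  apply local_compare (a := pk (-1)) (b := fun w : ℂ => -Real.log ‖w‖) hx0 hdk hda hdb
    (fderiv_I_zero pk_symm hdk)
    (fderiv_I_zero asymm hda) (fderiv_I_zero bsymm hdb) hk0 ha0 hb0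
  · rw [e0, e1, v0, v1]
    have p1 : 0 < 1 + x := by linarith
    have p2 : 0 < 1 - x := by linarith
    have a1 : -2 * x / (1 + x) ^ 2 / ((1 - x) / (1 + x)) < 0 := by
      apply div_neg_of_neg_of_pos
      · apply div_neg_of_neg_of_pos <;> [linarith; positivity]
      · positivity
    have a2 : 0 < 2 * x / (1 - x) ^ 2 / ((1 + x) / (1 - x)) := by positivity
    linarith
  · have p1 : 0 < 1 + x := by linarith
    have p2 : 0 < 1 - x := by linarith
    show fderiv ℝ (fun w : ℂ => -Real.log ‖w‖) ((-x : ℝ) : ℂ) ((-x : ℝ) : ℂ) /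
      (-Real.log ‖((-x : ℝ) : ℂ)‖) < _
    rw [e0, e2, v0, v2 x hx1]
    have a1 : -2 * x / (1 + x) ^ 2 / ((1 - x) / (1 + x)) = -(2 * x / ((1 - x) * (1 + x))) := by
      field_simp
    rw [a1, neg_div, neg_lt_neg_iff, div_lt_div_iff₀ (by positivity) ht]
    -- 2 x t < (1 - x)(1 + x), where t = - log x, i.e. t < sinh t
    have h1 : -Real.log x < Real.sinh (-Real.log x) := Real.self_lt_sinh_iff.2 ht
    rw [Real.sinh_eq, neg_neg, Real.exp_neg, Real.exp_log hx1] at h1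
    have h2 : 2 * x * (-Real.log x) < 2 * x * ((x⁻¹ - x) / 2) :=
      mul_lt_mul_of_pos_left h1 (by positivity)
    have h3 : 2 * x * ((x⁻¹ - x) / 2) = 1 - x ^ 2 := by
      field_simp
    rw [h3] at h2
    nlinarith

/-- The model at every negative point. -/
theorem model {r : ℝ} (h0 : 0 ≤ r) {x : ℝ} (hx1 : r < x) (hx2 : x < 1) :
    ∃ k : ℂ → ℝ, Model r (-x) k := by
  rcases h0.eq_or_lt with h | h
  · subst h
    exact ⟨_, model_zero hx1 hx2⟩
  · exact ⟨_, model_pos' h (hx1.trans hx2) hx1 hx2⟩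

end Pool.Agent.Lib.MP_e6ddea_an.Ann
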