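import Mathlib
import Pool.Agent.Lib.MP_e6ddea_an.Ann.Model

set_option autoImplicit false

open InnerProductSpace Metric Set Filter Topology

namespace Pool.Agent.Lib.MP_e6ddea_an.Ann

section

variable {r : ℝ} {D : Set ℂ} {φ ψ : ℂ → ℂ} (hr : 0 ≤ r) (hr1 : r < 1) (hD : IsOpen D)
  (hφ : DifferentiableOn ℂ φ (An r)) (hψ : DifferentiableOn ℂ ψ D)
  (hφD : MapsTo φ (An r) D) (hψA : MapsTo ψ D (An r))
  (hψφ : ∀ w ∈ An r, ψ (φ w) = w) (hφψ : ∀ z ∈ D, φ (ψ z) = z)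

include hr hr1 hφ hφD hψA hφψ in
theorem isConnected_D : IsConnected D := by
  have e : D = φ '' (An r) := by
    ext z
    constructor
    · intro hz
      exact ⟨ψ z, hψA hz, hφψ z hz⟩
    · rintro ⟨w, hw, rfl⟩
      exact hφD hw
  rw [e]
  refine IsConnected.image ⟨⟨(((r + 1) / 2 : ℝ) : ℂ), ?_⟩, isPreconnected_An hr⟩ φ hφ.continuousOn
  have h : ‖(((r + 1) / 2 : ℝ) : ℂ)‖ = (r + 1) / 2 := by
    rw [Complex.norm_real, Real.norm_eq_abs, abs_of_pos (by linarith)]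
  constructor <;> rw [h] <;> linarith

include hr hr1 hD hφ hψ hφD hψA hψφ in
theorem not_simplyConnected_D : ¬ SimplyConnectedSpace D := by
  intro hsc
  obtain ⟨f, hf, hfe⟩ := Complex.exists_continuousOn_eqOn_exp_comp (U := D) hsc hD
    (g := ψ) hψ.continuousOn (by
      rintro ⟨z, hz, hz0⟩
      exact An_ne_zero hr (hψA hz) hz0)
  -- the loop
  set ρ : ℝ := (r + 1) / 2 with hρ
  have hρ0 : 0 < ρ := by rw [hρ]; linarith
  let y : ℝ → ℂ := fun t => (ρ : ℂ) * Complex.exp (t * Complex.I)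
  have hy : ∀ t, y t ∈ An r := by
    intro t
    have hn : ‖y t‖ = ρ := by
      rw [norm_mul, Complex.norm_exp_ofReal_mul_I, mul_one, Complex.norm_real, Real.norm_eq_abs,
        abs_of_pos hρ0]
    constructor <;> rw [hn, hρ] <;> linarith
  have hyc : Continuous y := by fun_prop
  let z : ℝ → ℂ := fun t => φ (y t)
  have hz : ∀ t, z t ∈ D := fun t => hφD (hy t)
  have hzc : Continuous z := hφ.continuousOn.comp_continuous hyc hy
  have hFc : Continuous (fun t : ℝ => f (z t)) := hf.comp_continuous hzc hz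
  have hexp : ∀ t : ℝ, Complex.exp (f (z t) - t * Complex.I) = ρ := by
    intro t
    have h1 := hfe (hz t)
    simp only [Function.comp] at h1
    rw [Complex.exp_sub, h1]
    simp only [z]
    rw [hψφ _ (hy t)]
    simp only [y]
    field_simp [Complex.exp_ne_zero]
  let G : ℝ → ℝ := fun t => ((f (z t) - t * Complex.I) - f (z 0)).im
  have hGc : Continuous G :=
    Complex.continuous_im.comp ((hFc.sub (by fun_prop)).sub continuous_const)
  have hGint : ∀ t : ℝ, ∃ n : ℤ, G t = n * (2 * Real.pi) := by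
    intro t
    have h1 := hexp t
    have h0 := hexp 0
    simp only [Complex.ofReal_zero, zero_mul, sub_zero] at h0
    rw [← h0] at h1
    obtain ⟨n, hn⟩ := Complex.exp_eq_exp_iff_exists_int.1 h1
    refine ⟨n, ?_⟩
    simp only [G]
    rw [hn]
    simp
  have hG0 : G 0 = 0 := by simp [G]
  have hper : z (2 * Real.pi) = z 0 := by
    simp only [z, y]
    congr 2
    have : ((2 * Real.pi : ℝ) : ℂ) * Complex.I = 2 * Real.pi * Complex.I := by push_cast; ring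
    rw [this, Complex.exp_two_pi_mul_I]
    simp
  have hG1 : G (2 * Real.pi) = -(2 * Real.pi) := by
    simp only [G]
    rw [hper]
    simp
  have hivt : (-Real.pi) ∈ G '' (Icc 0 (2 * Real.pi)) := by
    apply intermediate_value_Icc' (by positivity) hGc.continuousOn
    rw [hG0, hG1]
    constructor <;> linarith [Real.pi_pos]
  obtain ⟨t, _, ht⟩ := hivt
  obtain ⟨n, hn⟩ := hGint t
  rw [ht] at hn
  have hpi := Real.pi_pos
  have h3 : (-1 : ℝ) = 2 * n := by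
    have : (-1 : ℝ) * Real.pi = (2 * n) * Real.pi := by linarith
    exact mul_right_cancel₀ hpi.ne' this
  have h4 : (-1 : ℤ) = 2 * n := by exact_mod_cast h3
  omega

include hr hD hφ hψ hφD hψA hψφ hφψ in
/-- Main transfer theorem. -/
theorem transfer {z₀ : ℂ} (hz₀ : z₀ ∈ D) :
    ∃ K : ℂ → ℝ, HarmonicOnNhd K D ∧ (∀ z ∈ D, 0 < K z) ∧ K z₀ = 1 ∧
      (∀ u : ℂ → ℝ, HarmonicOnNhd u D → (∀ z ∈ D, 0 < u z ∧ u z ≤ K z) →
        ∃ c : ℝ, ∀ z ∈ D, u z = c * K z) ∧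
      ∀ᶠ z in 𝓝[≠] z₀, ∃ h : ℂ → ℝ, HarmonicOnNhd h D ∧ (∀ z ∈ D, 0 < h z) ∧ h z₀ = 1 ∧
        K z < h z := by
  set w₀ : ℂ := ψ z₀ with hw₀
  have hw₀A : w₀ ∈ An r := hψA hz₀
  set x : ℝ := ‖w₀‖ with hx
  have hx0 : 0 < x := lt_of_le_of_lt hr hw₀A.1
  obtain ⟨k, hk1, hk2, hk3, hk4⟩ := model hr hw₀A.1 hw₀A.2
  rw [← hx] at hk4
  let ω : ℂ := -((starRingEnd ℂ) w₀) / (x : ℂ)
  have hxC : (x : ℂ) ≠ 0 := by exact_mod_cast hx0.ne'
  have hωn : ‖ω‖ = 1 := by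
    simp only [ω]
    rw [norm_div, norm_neg, Complex.norm_conj, Complex.norm_real, Real.norm_eq_abs, abs_of_pos hx0]
    exact div_self hx0.ne'
  have hω0 : ω ≠ 0 := by
    intro h
    rw [h, norm_zero] at hωn
    exact zero_ne_one hωn
  have hωw : ω * w₀ = ((-x : ℝ) : ℂ) := by
    have h1 : (starRingEnd ℂ) w₀ * w₀ = (x : ℂ) ^ 2 := by
      rw [mul_comm, Complex.mul_conj, Complex.normSq_eq_norm_sq]
      norm_cast
    simp only [ω]
    rw [div_mul_eq_mul_div, neg_mul, h1]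
    push_cast
    field_simp
  have hrot : ∀ w ∈ An r, ω * w ∈ An r := by
    intro w hw
    constructor
    · rw [norm_mul, hωn, one_mul]; exact hw.1
    · rw [norm_mul, hωn, one_mul]; exact hw.2
  have hrot' : ∀ w ∈ An r, ω⁻¹ * w ∈ An r := by
    intro w hw
    constructor
    · rw [norm_mul, norm_inv, hωn, inv_one, one_mul]; exact hw.1
    · rw [norm_mul, norm_inv, hωn, inv_one, one_mul]; exact hw.2
  let Φ : ℂ → ℂ := fun z => ω * ψ z
  let Ψ : ℂ → ℂ := fun w => φ (ω⁻¹ * w)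
  have hΦA : ∀ z ∈ D, Φ z ∈ An r := fun z hz => hrot _ (hψA hz)
  have hΨD : ∀ w ∈ An r, Ψ w ∈ D := fun w hw => hφD (hrot' w hw)
  have hΦΨ : ∀ w ∈ An r, Φ (Ψ w) = w := by
    intro w hw
    simp only [Φ, Ψ]
    rw [hψφ _ (hrot' w hw), ← mul_assoc, mul_inv_cancel₀ hω0, one_mul]
  have hΨΦ : ∀ z ∈ D, Ψ (Φ z) = z := by
    intro z hz
    simp only [Φ, Ψ]
    rw [← mul_assoc, inv_mul_cancel₀ hω0, one_mul, hφψ z hz]
  have hΦan : ∀ z ∈ D, AnalyticAt ℂ Φ z := fun z hz =>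
    analyticAt_const.mul (hψ.analyticAt (hD.mem_nhds hz))
  have hΨan : ∀ w ∈ An r, AnalyticAt ℂ Ψ w := by
    intro w hw
    have h1 : AnalyticAt ℂ φ (ω⁻¹ * w) := hφ.analyticAt ((isOpen_An r).mem_nhds (hrot' w hw))
    have h2 : AnalyticAt ℂ (fun w : ℂ => ω⁻¹ * w) w := by fun_prop
    exact h1.comp h2
  have hΦ0 : Φ z₀ = ((-x : ℝ) : ℂ) := hωw
  have hxA : ((-x : ℝ) : ℂ) ∈ An r := by rw [← hΦ0]; exact hΦA z₀ hz₀
  have hkx : 0 < k ((-x : ℝ) : ℂ) := hk2 _ hxA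
  refine ⟨fun z => (k ((-x : ℝ) : ℂ))⁻¹ * k (Φ z), ?_, ?_, ?_, ?_, ?_⟩
  · intro z hz
    have h1 : HarmonicAt (fun z => k (Φ z)) z := harmonicAt_comp (hΦan z hz) (hk1 _ (hΦA z hz))
    exact h1.const_smul (c := (k ((-x : ℝ) : ℂ))⁻¹)
  · intro z hz
    exact mul_pos (inv_pos.2 hkx) (hk2 _ (hΦA z hz))
  · simp only
    rw [hΦ0]
    exact inv_mul_cancel₀ hkx.ne'
  · intro u hu hule
    obtain ⟨c, hc⟩ := hk3 (fun w => k ((-x : ℝ) : ℂ) * u (Ψ w)) (by
      intro w hw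
      have h1 : HarmonicAt (fun w => u (Ψ w)) w := harmonicAt_comp (hΨan w hw) (hu _ (hΨD w hw))
      exact h1.const_smul (c := k ((-x : ℝ) : ℂ))) (by
      intro w hw
      obtain ⟨h1, h2⟩ := hule _ (hΨD w hw)
      refine ⟨mul_pos hkx h1, ?_⟩
      simp only [hΦΨ w hw] at h2
      calc k ((-x : ℝ) : ℂ) * u (Ψ w) ≤ k ((-x : ℝ) : ℂ) * ((k ((-x : ℝ) : ℂ))⁻¹ * k w) :=
            mul_le_mul_of_nonneg_left h2 hkx.le
        _ = k w := by rw [← mul_assoc, mul_inv_cancel₀ hkx.ne', one_mul])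
    refine ⟨c, ?_⟩
    intro z hz
    have h1 := hc (Φ z) (hΦA z hz)
    simp only [hΨΦ z hz] at h1
    have h2 : u z = (k ((-x : ℝ) : ℂ))⁻¹ * (k ((-x : ℝ) : ℂ) * u z) := by
      rw [← mul_assoc, inv_mul_cancel₀ hkx.ne', one_mul]
    rw [h2, h1]
    ring
  · have hcont : ContinuousAt Φ z₀ := (hΦan z₀ hz₀).continuousAt
    have htend : Tendsto Φ (𝓝[≠] z₀) (𝓝[≠] ((-x : ℝ) : ℂ)) := by
      rw [← hΦ0]
      apply tendsto_nhdsWithin_of_tendsto_nhds_of_eventually_within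
      · exact hcont.tendsto.mono_left nhdsWithin_le_nhds
      · filter_upwards [nhdsWithin_le_nhds (hD.mem_nhds hz₀), self_mem_nhdsWithin] with z hz hne heq
        apply hne
        have := congrArg Ψ heq
        rw [hΨΦ z hz, hΨΦ z₀ hz₀] at this
        exact this
    filter_upwards [htend.eventually hk4] with z hz
    obtain ⟨h, h1, h2, h3, h4⟩ := hz
    refine ⟨fun z => h (Φ z), ?_, ?_, ?_, ?_⟩
    · intro z hz
      exact harmonicAt_comp (hΦan z hz) (h1 _ (hΦA z hz))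
    · intro z hz
      exact h2 _ (hΦA z hz)
    · simp only
      rw [hΦ0]
      exact h3
    · rw [← div_eq_inv_mul]
      exact h4

end

/-- Local upper bound for normalised positive harmonic functions. -/
theorem local_bound {D : Set ℂ} (hD : IsOpen D) {z₀ : ℂ} (hz₀ : z₀ ∈ D) :
    ∀ᶠ z in 𝓝 z₀, ∀ h : ℂ → ℝ, HarmonicOnNhd h D → (∀ z ∈ D, 0 < h z) → h z₀ ≤ 1 → h z ≤ 3 := by
  obtain ⟨R, hR, hRD⟩ := Metric.nhds_basis_closedBall.mem_iff.1 (hD.mem_nhds hz₀)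
  filter_upwards [ball_mem_nhds z₀ (half_pos hR)] with z hz h h1 h2 h3
  have hzR : z ∈ ball z₀ R := ball_subset_ball (by linarith) hz
  have h4 := (harnack hR (h1.mono hRD) (fun y hy => (h2 y (hRD hy)).le) hzR).2
  rw [mem_ball, dist_eq_norm] at hz
  have h5 : (R + ‖z - z₀‖) / (R - ‖z - z₀‖) ≤ 3 := by
    rw [div_le_iff₀ (by linarith)]
    linarith
  have h6 : 0 ≤ (R + ‖z - z₀‖) / (R - ‖z - z₀‖) := by
    have := norm_nonneg (z - z₀)
    apply div_nonneg <;> linarith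
  have h7 : 0 < h z₀ := h2 z₀ hz₀
  calc h z ≤ (R + ‖z - z₀‖) / (R - ‖z - z₀‖) * h z₀ := h4
    _ ≤ 3 * 1 := mul_le_mul h5 h3 h7.le (by norm_num)
    _ = 3 := by norm_num

end Pool.Agent.Lib.MP_e6ddea_an.Ann
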